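import Pool.Agent.H97.S6.H3R
import Pool.Agent.H29.OC.NlcS

/-!
# Two transversal planks through a point: the inequality of entropies

`N` is a variable, `τ` a variable of the line, `W` the box. Two lines which are independent given
`N, W`: `2 H(N | τ, W) ≤ H(N | W) + H(N | τ₁, τ₂, W)`. For the positions in two rows and the planks
through the line, the last term is the price of the transversality.
-/

set_option autoImplicit false

namespace Pool.HPL

open Finset Real
open Pool.Agent.H49.Ent Pool.Agent.H32.Dense Pool.STK Pool.KA Pool.K2S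

section

variable {Ω S T U : Type} [Fintype Ω]

/-- **The inequality.** -/
theorem cord {p : Ω → ℝ} (hp : IsLaw p) (N : Ω → S) (τ : Ω → T) (W : Ω → U) :
    2 * CH p N (fun ω => (τ ω, W ω)) ≤ CH p N W +
      CH (dbl p (fun ω => (N ω, W ω))) (fun v => N v.1)
        (fun v => ((τ v.1, τ v.2), W v.1)) := by
  have h0 := hp.nonneg
  obtain ⟨b, hb⟩ : ∃ f, f = fun ω => (N ω, W ω) := ⟨_, rfl⟩
  obtain ⟨q, hq⟩ : ∃ q, q = dbl p b := ⟨_, rfl⟩
  have hq0 : ∀ v, 0 ≤ q v := by
    rw [hq]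
    exact dbl_nonneg h0
  have m1 : Marg q p (fun w => w.1) := by
    rw [hq]
    exact dbl_fst h0
  have m2 : Marg q p (fun w => w.2) := by
    rw [hq]
    exact dbl_snd h0
  have heq : ∀ v, 0 < q v → N v.1 = N v.2 ∧ W v.1 = W v.2 := by
    intro v hv
    rw [hq] at hv
    have h := dbl_eq h0 hv
    rw [hb] at h
    exact Prod.ext_iff.mp h
  -- the entropies of the second line
  have a1 : CH q (fun v => τ v.2) (fun v => (τ v.1, (N v.1, W v.1))) = CH p τ b := by
    have h := CH_glue_snd (p₁ := p) (p₂ := p) (Z₁ := b) (Z₂ := b) h0 h0 (fun _ => rfl) τ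
      (Y := b) τ (fun _ _ _ _ h => h)
    have h' : CH q (fun v => τ v.2) (fun v => (b v.2, τ v.1)) = CH p τ b := by
      rw [hq]
      exact h
    rw [← h']
    refine CH_congr hq0 (fun _ _ _ _ h => (Prod.ext_iff.mp h).1)
      (fun _ _ _ _ h => (Prod.ext_iff.mp h).1) ?_ ?_
    · intro v v' a a' h
      have h1 := Prod.ext_iff.mp h
      have h2 := Prod.ext_iff.mp h1.2
      refine Prod.ext ?_ h1.1
      rw [hb]
      show (N v.2, W v.2) = (N v'.2, W v'.2)
      rw [← (heq v a).1, ← (heq v a).2, ← (heq v' a').1, ← (heq v' a').2]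
      exact Prod.ext h2.1 h2.2
    · intro v v' a a' h
      have h1 := Prod.ext_iff.mp h
      have h2 : b v.2 = b v'.2 := h1.1
      rw [hb] at h2
      have h3 := Prod.ext_iff.mp h2
      refine Prod.ext h1.2 ?_
      show (N v.1, W v.1) = (N v'.1, W v'.1)
      rw [(heq v a).1, (heq v a).2, (heq v' a').1, (heq v' a').2]
      exact h2
  have a2 : CH q (fun v => τ v.2) (fun v => W v.1) = CH p τ W := by
    have h := m2.CH τ W
    rw [← h]
    refine CH_congr hq0 (fun _ _ _ _ h => (Prod.ext_iff.mp h).1)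
      (fun _ _ _ _ h => (Prod.ext_iff.mp h).1) ?_ ?_
    · intro v v' a a' h
      show W v.2 = W v'.2
      rw [← (heq v a).2, ← (heq v' a').2]
      exact h
    · intro v v' a a' h
      show W v.1 = W v'.1
      rw [(heq v a).2, (heq v' a').2]
      exact h
  have b1 : CH q (fun v => N v.1) (fun v => W v.1) = CH p N W := m1.CH N W
  have b2 : CH q (fun v => τ v.1) (fun v => (N v.1, W v.1)) = CH p τ b := by
    rw [hb]
    exact m1.CH τ (fun ω => (N ω, W ω))
  have b3 : CH q (fun v => τ v.1) (fun v => W v.1) = CH p τ W := m1.CH τ W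
  -- the chain rules for the pair
  have c1 := CH_chain hq0 (fun v => τ v.1) (fun v => N v.1) (fun v => W v.1)
  have c2 := CH_chain hq0 (fun v => τ v.2) (fun v => (τ v.1, N v.1)) (fun v => W v.1)
  have c3 := CH_chain hq0 (fun v => N v.1) (fun v => (τ v.1, τ v.2)) (fun v => W v.1)
  have c4 := CH_chain hq0 (fun v => τ v.1) (fun v => τ v.2) (fun v => W v.1)
  have c5 : CH q (fun v => τ v.2) (fun v => ((τ v.1, N v.1), W v.1)) =
      CH q (fun v => τ v.2) (fun v => (τ v.1, (N v.1, W v.1))) := by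
    refine CH_congr hq0 (fun _ _ _ _ h => (Prod.ext_iff.mp h).1)
      (fun _ _ _ _ h => (Prod.ext_iff.mp h).1) ?_ ?_
    · intro v v' _ _ h
      have h1 := Prod.ext_iff.mp h
      have h2 := Prod.ext_iff.mp h1.1
      exact Prod.ext h2.1 (Prod.ext h2.2 h1.2)
    · intro v v' _ _ h
      have h1 := Prod.ext_iff.mp h
      have h2 := Prod.ext_iff.mp h1.2
      exact Prod.ext (Prod.ext h1.1 h2.1) h2.2
  have c6 : CH q (fun v => (τ v.2, (τ v.1, N v.1))) (fun v => W v.1) =
      CH q (fun v => (N v.1, (τ v.1, τ v.2))) (fun v => W v.1) := by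
    refine le_antisymm (CH_mono_left hq0 ?_) (CH_mono_left hq0 ?_)
    · intro v v' _ _ h
      have h1 := Prod.ext_iff.mp (Prod.ext_iff.mp h).1
      have h2 := Prod.ext_iff.mp h1.2
      exact Prod.ext h2.2 (Prod.ext h2.1 h1.1)
    · intro v v' _ _ h
      have h1 := Prod.ext_iff.mp (Prod.ext_iff.mp h).1
      have h2 := Prod.ext_iff.mp h1.2
      exact Prod.ext h2.2 (Prod.ext h2.1 h1.1)
  have c7 : CH q (fun v => τ v.1) (fun v => (τ v.2, W v.1)) ≤
      CH q (fun v => τ v.1) (fun v => W v.1) :=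
    CH_mono_cond hq0 fun _ _ _ _ h => (Prod.ext_iff.mp h).2
  -- the chain rules for one line
  have d1 := CH_chain h0 τ N W
  have d2 := CH_chain h0 N τ W
  have d3 : CH p (fun ω => (τ ω, N ω)) W = CH p (fun ω => (N ω, τ ω)) W := by
    refine le_antisymm (CH_mono_left h0 ?_) (CH_mono_left h0 ?_)
    · intro v v' _ _ h
      have h1 := Prod.ext_iff.mp (Prod.ext_iff.mp h).1
      exact Prod.ext h1.2 h1.1
    · intro v v' _ _ h
      have h1 := Prod.ext_iff.mp (Prod.ext_iff.mp h).1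
      exact Prod.ext h1.2 h1.1
  have e1 : CH p τ b = CH p τ (fun ω => (N ω, W ω)) := by rw [hb]
  rw [← hb, ← hq]
  linarith

/-- Entropy of two digits which are near functions of the condition, outside a set of pairs. -/
theorem cord_dig {q : Ω → ℝ} (hq : IsLaw q) (x : Ω → ℝ) (Z : Ω → T) (G : Set Ω) {K L : ℝ}
    {X : ℕ} (hK : 0 ≤ K) (hL : 0 ≤ L)
    (hx : ∀ v, 0 < q v → |x v| ≤ K)
    (hn : ∀ v v', 0 < q v → 0 < q v' → Z v = Z v' → v ∉ G → |x v - x v'| ≤ L / 2 ^ X) :
    CH q (Uni.dg X x) Z ≤ Real.log (2 * L + 3) +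
      Pool.KAF.Pr q G * Real.log (4 * K * 2 ^ X + 3) := by
  classical
  have hX : (0 : ℝ) < 2 ^ X := by positivity
  have h1 := CH_le_int hq.nonneg hq.sum_one (Uni.dg X x) Z
    (fun v => if v ∈ G then 2 * K * 2 ^ X + 1 else L + 1) (fun v v' hv hv' h => by
      have key : ∀ c : ℝ, |x v - x v'| ≤ c / 2 ^ X →
          |((⌊(2 : ℝ) ^ X * x v⌋ - ⌊(2 : ℝ) ^ X * x v'⌋ : ℤ) : ℝ)| ≤ c + 1 := by
        intro c hc
        refine Plk.floor_sub_lt ?_
        rw [← mul_sub, abs_mul, abs_of_pos hX]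
        calc (2 : ℝ) ^ X * |x v - x v'| ≤ 2 ^ X * (c / 2 ^ X) :=
              mul_le_mul_of_nonneg_left hc hX.le
          _ = c := by field_simp
      by_cases hvG : v ∈ G
      · rw [if_pos hvG]
        refine key _ ?_
        rw [mul_div_assoc, div_self hX.ne', mul_one]
        refine (abs_sub _ _).trans ?_
        linarith [hx v hv, hx v' hv']
      · rw [if_neg hvG]
        exact key _ (hn v v' hv hv' h hvG))
  refine h1.trans ?_
  have l1 : 0 ≤ Real.log (2 * L + 3) := Real.log_nonneg (by linarith)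
  have l2 : 0 ≤ Real.log (4 * K * 2 ^ X + 3) :=
    Real.log_nonneg (by nlinarith [mul_nonneg hK hX.le])
  have h2 : Ex q (fun v => Real.log (2 * (if v ∈ G then 2 * K * 2 ^ X + 1 else L + 1) + 1)) ≤
      Ex q (fun v => Real.log (2 * L + 3) +
        (if v ∈ G then 1 else 0) * Real.log (4 * K * 2 ^ X + 3)) := by
    unfold Ex
    refine Finset.sum_le_sum fun v _ => mul_le_mul_of_nonneg_left ?_ (hq.nonneg v)
    beta_reduce
    by_cases hvG : v ∈ G
    · rw [if_pos hvG, if_pos hvG, one_mul]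
      have e : 2 * (2 * K * (2 : ℝ) ^ X + 1) + 1 = 4 * K * 2 ^ X + 3 := by ring
      rw [e]
      linarith
    · rw [if_neg hvG, if_neg hvG, zero_mul, add_zero]
      have e : 2 * (L + 1) + 1 = 2 * L + 3 := by ring
      rw [e]
  refine h2.trans (le_of_eq ?_)
  have e1 : Ex q (fun v => Real.log (2 * L + 3) +
      (if v ∈ G then 1 else 0) * Real.log (4 * K * 2 ^ X + 3)) =
      (∑ v, q v) * Real.log (2 * L + 3) +
        (∑ v, if v ∈ G then q v else 0) * Real.log (4 * K * 2 ^ X + 3) := by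
    unfold Ex
    rw [Finset.sum_mul, Finset.sum_mul, ← Finset.sum_add_distrib]
    refine Finset.sum_congr rfl fun v _ => ?_
    beta_reduce
    by_cases hvG : v ∈ G
    · rw [if_pos hvG, if_pos hvG]
      ring
    · rw [if_neg hvG, if_neg hvG]
      ring
  rw [e1, hq.sum_one, one_mul, Pool.KAF.Pr_eq]

/-- **The inequality for two rows**: `A` and `n` are the positions in two rows, `y` the rest of the
block; the line, given `τ` and the box, lies in a plank of slope `sg`. Two independent lines through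
a point have slopes at distance `1 / 2 ^ g`, outside a set of pairs. -/
theorem cord_real {p : Ω → ℝ} (hp : IsLaw p) (y : Ω → S) (A n sg cc : Ω → ℝ) (τ : Ω → T)
    (W : Ω → U) (X g : ℕ) {K : ℝ} (hK : 1 ≤ K) (hA : ∀ ω, 0 < p ω → |A ω| ≤ K)
    (hs : ∀ ω, 0 < p ω → |sg ω| ≤ K)
    (hc : ∀ ω, 0 < p ω → |cc ω - (n ω - sg ω * A ω)| ≤ K / 2 ^ X)
    (dsg : Det p (fun ω => (τ ω, W ω)) sg) (dcc : Det p (fun ω => (τ ω, W ω)) cc) :
    2 * CH p (fun ω => (y ω, (Uni.dg X A ω, Uni.dg X n ω))) (fun ω => (τ ω, W ω)) ≤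
      CH p (fun ω => (y ω, (Uni.dg X A ω, Uni.dg X n ω))) W + CH p y W +
        Real.log (16 * K * 2 ^ g + 3) + Real.log (6 * K + 3) +
        Pool.KAF.Pr (dbl p (fun ω => ((y ω, (Uni.dg X A ω, Uni.dg X n ω)), W ω)))
          {v | |sg v.1 - sg v.2| < 1 / 2 ^ g} * Real.log (4 * K * 2 ^ X + 3) := by
  have h0 := hp.nonneg
  have hX : (0 : ℝ) < 2 ^ X := by positivity
  have hg : (0 : ℝ) < 2 ^ g := by positivity
  obtain ⟨B, hB⟩ : ∃ f, f = fun ω => (y ω, (Uni.dg X A ω, Uni.dg X n ω)) := ⟨_, rfl⟩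
  have key := cord hp B τ W
  obtain ⟨q, hq⟩ : ∃ q, q = dbl p (fun ω => (B ω, W ω)) := ⟨_, rfl⟩
  have hqL : IsLaw q := by
    rw [hq]
    exact ⟨dbl_nonneg h0, by
      rw [(dbl_fst (b := fun ω => (B ω, W ω)) h0).sum, hp.sum_one]⟩
  have hq0 := hqL.nonneg
  have m1 : Marg q p (fun w => w.1) := by
    rw [hq]
    exact dbl_fst h0
  have m2 : Marg q p (fun w => w.2) := by
    rw [hq]
    exact dbl_snd h0
  obtain ⟨Y, hY⟩ : ∃ f : Ω × Ω → (T × T) × U, f = fun v => ((τ v.1, τ v.2), W v.1) := ⟨_, rfl⟩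
  rw [← hq, ← hY] at key
  have heq : ∀ v, 0 < q v → Uni.dg X A v.1 = Uni.dg X A v.2 ∧ Uni.dg X n v.1 = Uni.dg X n v.2 ∧
      W v.1 = W v.2 := by
    intro v hv
    rw [hq] at hv
    have h := dbl_eq h0 hv
    have h1 := Prod.ext_iff.mp h
    have h2 : B v.1 = B v.2 := h1.1
    rw [hB] at h2
    have h3 := Prod.ext_iff.mp (Prod.ext_iff.mp h2).2
    exact ⟨h3.1, h3.2, h1.2⟩
  have near : ∀ (f : Ω → ℝ) (v : Ω × Ω), Uni.dg X f v.1 = Uni.dg X f v.2 →
      |f v.1 - f v.2| ≤ 1 / 2 ^ X := by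
    intro f v hv
    have h1 : |2 ^ X * f v.1 - 2 ^ X * f v.2| ≤ 1 := Plk.abs_sub_lt_of_floor hv
    rw [← mul_sub, abs_mul, abs_of_pos hX] at h1
    rw [le_div_iff₀ hX, mul_comm]
    exact h1
  have dY : ∀ v v', 0 < q v → 0 < q v' → Y v = Y v' →
      sg v.1 = sg v'.1 ∧ sg v.2 = sg v'.2 ∧ cc v.1 = cc v'.1 ∧ cc v.2 = cc v'.2 := by
    intro v v' hv hv' h
    rw [hY] at h
    have h1 := Prod.ext_iff.mp h
    have h2 := Prod.ext_iff.mp h1.1
    have g1 := heq v hv
    have g2 := heq v' hv'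
    have w2 : W v.2 = W v'.2 := by
      rw [← g1.2.2, ← g2.2.2]
      exact h1.2
    have t1 : (τ v.1, W v.1) = (τ v'.1, W v'.1) := Prod.ext h2.1 h1.2
    have t2 : (τ v.2, W v.2) = (τ v'.2, W v'.2) := Prod.ext h2.2 w2
    exact ⟨dsg _ _ (m1.pos hq0 hv) (m1.pos hq0 hv') t1, dsg _ _ (m2.pos hq0 hv) (m2.pos hq0 hv') t2,
      dcc _ _ (m1.pos hq0 hv) (m1.pos hq0 hv') t1, dcc _ _ (m2.pos hq0 hv) (m2.pos hq0 hv') t2⟩
  -- the position in the first row
  have k1 := cord_dig hqL (fun v => A v.1) Y {v | |sg v.1 - sg v.2| < 1 / 2 ^ g}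
    (K := K) (L := 8 * K * 2 ^ g) (X := X) (by linarith) (by positivity)
    (fun v hv => hA _ (m1.pos hq0 hv)) (fun v v' hv hv' h hG => by
      obtain ⟨e1, e2, e3, e4⟩ := dY v v' hv hv' h
      have hG' : 1 / 2 ^ g ≤ |sg v.1 - sg v.2| := not_lt.1 hG
      have eqn : ∀ u : Ω × Ω, 0 < q u →
          |(cc u.1 - cc u.2) - (sg u.2 - sg u.1) * A u.1| ≤ 4 * K / 2 ^ X := by
        intro u hu
        have a1 := hc u.1 (m1.pos hq0 hu)
        have a2 := hc u.2 (m2.pos hq0 hu)
        have a3 := near A u (heq u hu).1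
        have a4 := near n u (heq u hu).2.1
        have a5 := hs u.2 (m2.pos hq0 hu)
        have a6 : |sg u.2 * (A u.1 - A u.2)| ≤ K * (1 / 2 ^ X) := by
          rw [abs_mul]
          exact mul_le_mul a5 a3 (abs_nonneg _) (by linarith)
        have e : (cc u.1 - cc u.2) - (sg u.2 - sg u.1) * A u.1 =
            (cc u.1 - (n u.1 - sg u.1 * A u.1)) - (cc u.2 - (n u.2 - sg u.2 * A u.2)) +
              (n u.1 - n u.2) - sg u.2 * (A u.1 - A u.2) := by ring
        rw [e]
        have b1 : 1 / (2 : ℝ) ^ X ≤ K / 2 ^ X := div_le_div_of_nonneg_right hK hX.le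
        have b2 : K * (1 / (2 : ℝ) ^ X) = K / 2 ^ X := by ring
        have b3 : 4 * K / (2 : ℝ) ^ X = K / 2 ^ X + K / 2 ^ X + K / 2 ^ X + K / 2 ^ X := by ring
        rw [b3]
        have c1 := abs_le.1 a1
        have c2 := abs_le.1 a2
        have c4 := abs_le.1 a4
        have c6 := abs_le.1 a6
        rw [b2] at c6
        rw [abs_le]
        constructor <;> linarith [c1.1, c1.2, c2.1, c2.2, c4.1, c4.2, c6.1, c6.2]
      have f1 := eqn v hv
      have f2 := eqn v' hv'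
      rw [← e1, ← e2, ← e3, ← e4] at f2
      have f3 : |(sg v.2 - sg v.1) * (A v.1 - A v'.1)| ≤ 8 * K / 2 ^ X := by
        have e : (sg v.2 - sg v.1) * (A v.1 - A v'.1) =
            ((cc v.1 - cc v.2) - (sg v.2 - sg v.1) * A v'.1) -
              ((cc v.1 - cc v.2) - (sg v.2 - sg v.1) * A v.1) := by ring
        rw [e]
        refine (abs_sub _ _).trans ?_
        have e2 : 8 * K / (2 : ℝ) ^ X = 4 * K / 2 ^ X + 4 * K / 2 ^ X := by ring
        rw [e2]
        exact add_le_add f2 f1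
      rw [abs_mul, abs_sub_comm (sg v.2) (sg v.1)] at f3
      have f4 : 1 / 2 ^ g * |A v.1 - A v'.1| ≤ 8 * K / 2 ^ X :=
        (mul_le_mul_of_nonneg_right hG' (abs_nonneg _)).trans f3
      have f5 : |A v.1 - A v'.1| = 2 ^ g * (1 / 2 ^ g * |A v.1 - A v'.1|) := by
        field_simp
      rw [f5]
      calc (2 : ℝ) ^ g * (1 / 2 ^ g * |A v.1 - A v'.1|) ≤ 2 ^ g * (8 * K / 2 ^ X) :=
            mul_le_mul_of_nonneg_left f4 hg.le
        _ = 8 * K * 2 ^ g / 2 ^ X := by ring)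
  -- the position in the second row
  have k2 : CH q (fun v => Uni.dg X n v.1) (fun v => (Uni.dg X A v.1, Y v)) ≤
      Real.log (6 * K + 3) := by
    have h1 := cord_dig hqL (fun v => n v.1) (fun v => (Uni.dg X A v.1, Y v)) ∅
      (K := ∑ v : Ω × Ω, |n v.1|) (L := 3 * K) (X := X)
      (Finset.sum_nonneg fun _ _ => abs_nonneg _) (by linarith)
      (fun v _ =>
        Finset.single_le_sum (f := fun v : Ω × Ω => |n v.1|) (fun _ _ => abs_nonneg _)
          (Finset.mem_univ v)) (fun v v' hv hv' h _ => by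
        have h1 := Prod.ext_iff.mp h
        obtain ⟨e1, -, e3, -⟩ := dY v v' hv hv' h1.2
        have a1 := hc v.1 (m1.pos hq0 hv)
        have a2 := hc v'.1 (m1.pos hq0 hv')
        have a3 : |A v.1 - A v'.1| ≤ 1 / 2 ^ X := near A (v.1, v'.1) h1.1
        have a6 : |sg v.1 * (A v.1 - A v'.1)| ≤ K * (1 / 2 ^ X) := by
          rw [abs_mul]
          exact mul_le_mul (hs _ (m1.pos hq0 hv)) a3 (abs_nonneg _) (by linarith)
        rw [← e1, ← e3] at a2
        have b2 : K * (1 / (2 : ℝ) ^ X) = K / 2 ^ X := by ring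
        have b3 : 3 * K / (2 : ℝ) ^ X = K / 2 ^ X + K / 2 ^ X + K / 2 ^ X := by ring
        have e : n v.1 - n v'.1 = -(cc v.1 - (n v.1 - sg v.1 * A v.1)) +
            (cc v.1 - (n v'.1 - sg v.1 * A v'.1)) + sg v.1 * (A v.1 - A v'.1) := by ring
        show |n v.1 - n v'.1| ≤ _
        rw [e, b3]
        have c1 := abs_le.1 a1
        have c2 := abs_le.1 a2
        have c6 := abs_le.1 a6
        rw [b2] at c6
        rw [abs_le]
        constructor <;> linarith [c1.1, c1.2, c2.1, c2.2, c6.1, c6.2])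
    have h2 : Pool.KAF.Pr q ∅ = 0 := by
      rw [Pool.KAF.Pr_eq]
      simp
    rw [h2, zero_mul, add_zero] at h1
    have e : 2 * (3 * K) + 3 = 6 * K + 3 := by ring
    rw [e] at h1
    exact h1
  have k3 : CH q (fun v => y v.1) Y ≤ CH p y W := by
    rw [← m1.CH y W]
    refine CH_mono_cond hq0 fun v v' _ _ h => ?_
    rw [hY] at h
    exact (Prod.ext_iff.mp h).2
  have k4 : CH q (fun v => B v.1) Y ≤ CH q (fun v => y v.1) Y +
      (CH q (fun v => Uni.dg X A v.1) Y +
        CH q (fun v => Uni.dg X n v.1) (fun v => (Uni.dg X A v.1, Y v))) := by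
    have c1 := CH_subadd hq0 (fun v => y v.1) (fun v => (Uni.dg X A v.1, Uni.dg X n v.1)) Y
    have c2 := CH_chain hq0 (fun v => Uni.dg X n v.1) (fun v => Uni.dg X A v.1) Y
    have c3 : CH q (fun v => (Uni.dg X A v.1, Uni.dg X n v.1)) Y =
        CH q (fun v => (Uni.dg X n v.1, Uni.dg X A v.1)) Y := by
      refine le_antisymm (CH_mono_left hq0 ?_) (CH_mono_left hq0 ?_)
      · intro v v' _ _ h
        have h1 := Prod.ext_iff.mp (Prod.ext_iff.mp h).1
        exact Prod.ext h1.2 h1.1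
      · intro v v' _ _ h
        have h1 := Prod.ext_iff.mp (Prod.ext_iff.mp h).1
        exact Prod.ext h1.2 h1.1
    have c4 : (fun v : Ω × Ω => B v.1) = fun v => (y v.1, (Uni.dg X A v.1, Uni.dg X n v.1)) := by
      rw [hB]
    rw [c4]
    linarith
  have e1 : 2 * (8 * K * (2 : ℝ) ^ g) + 3 = 16 * K * 2 ^ g + 3 := by ring
  rw [e1] at k1
  have k5 : CH q (fun v => Uni.dg X A v.1) Y ≤ Real.log (16 * K * 2 ^ g + 3) +
      Pool.KAF.Pr q {v | |sg v.1 - sg v.2| < 1 / 2 ^ g} * Real.log (4 * K * 2 ^ X + 3) := k1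
  have e2 : dbl p (fun ω => ((y ω, (Uni.dg X A ω, Uni.dg X n ω)), W ω)) = q := by
    rw [hq, hB]
  rw [← hB, e2]
  linarith

end

end Pool.HPL
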