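import Pool.Agent.H50.S6H.Sums
import Pool.Agent.H98.OCV.Thm
import Pool.Agent.H6.S6H.Hin

/-!
# Plateau of `R - ϖ`, lines without strips, one family
-/

set_option autoImplicit false

namespace Pool.HPL

open Finset Real
open Pool.Agent.H49.Ent Pool.Agent.H32.Dense Pool.STK Pool.KA Pool.KA.Box Pool.KSAT Pool.K2S
  Pool.S6N Pool.S6H
open Pool.FALL (fw fv fq grid_rect)

/-- The three quantities. -/
noncomputable def g1 {J : ℕ} (F : Fam 3 J) (A : F.Ω → Prop) (σ : Fin 3 → Fin 3)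
    (N X Δ r w₀ V₀ H q₀ : ℕ) (a s t : ℕ → F.Ω → ℝ) (a' s' t' : F.Ω → ℝ) (i k : ℕ) : ℝ :=
  CH (Pool.Agent.H49.Ent.cond F.p A True) (fun ω => (a' ω, s' ω, t' ω))
      (fun ω => (cx F σ N Δ r w₀ V₀ H q₀ a s t i k ω, F.T ω)) -
    CH (Pool.Agent.H49.Ent.cond F.p A True) (fun ω => (a' ω, s' ω, t' ω))
      (fun ω => (bx F σ N X Δ r w₀ V₀ H q₀ a s t i k ω,
        (cx F σ N Δ r w₀ V₀ H q₀ a s t i k ω, F.T ω)))

/-- The defect in (H2). -/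
noncomputable def g2 {J : ℕ} (F : Fam 3 J) (A : F.Ω → Prop) (σ : Fin 3 → Fin 3)
    (N X Δ r w₀ V₀ H q₀ : ℕ) (a s t : ℕ → F.Ω → ℝ) (a' s' t' : F.Ω → ℝ) (i k : ℕ) : ℝ :=
  CH (Pool.Agent.H49.Ent.cond F.p A True)
      (Pool.OCV.dgv X (nx F σ N X Δ r w₀ V₀ H q₀ a s t a' s' t' i k))
      (fun ω => (cx F σ N Δ r w₀ V₀ H q₀ a s t i k ω, gt F a' s' t' ω)) -
    CH (Pool.Agent.H49.Ent.cond F.p A True)
      (Pool.OCV.dgv X (nx F σ N X Δ r w₀ V₀ H q₀ a s t a' s' t' i k))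
      (fun ω => (vx F σ N X Δ r w₀ V₀ H q₀ a s t i k ω,
        (cx F σ N Δ r w₀ V₀ H q₀ a s t i k ω, gt F a' s' t' ω)))

/-- The defect in (H3). -/
noncomputable def g3 {J : ℕ} (F : Fam 3 J) (A : F.Ω → Prop) (σ : Fin 3 → Fin 3)
    (N X Δ r w₀ V₀ H q₀ : ℕ) (a s t : ℕ → F.Ω → ℝ) (a' s' t' : F.Ω → ℝ) (i k : ℕ) : ℝ :=
  CH (Pool.Agent.H49.Ent.cond F.p A True)
      (Uni.dg X (ox F σ N X Δ r V₀ H q₀ a s t i k))
      (fun ω => (cx F σ N Δ r w₀ V₀ H q₀ a s t i k ω, gt F a' s' t' ω)) -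
    CH (Pool.Agent.H49.Ent.cond F.p A True)
      (Uni.dg X (ox F σ N X Δ r V₀ H q₀ a s t i k))
      (fun ω => (ex F σ N X Δ r w₀ V₀ H q₀ a s t a' s' t' i k ω,
        (cx F σ N Δ r w₀ V₀ H q₀ a s t i k ω, gt F a' s' t' ω)))

/-- **(HPLA)**, one family, from theorem OCV with two normal coordinates. -/
theorem hpl_one_of (hOCV : Pool.OCV.OCVRStmt 2) : HplOneStmt := by
  intro D c ca hD hc hca
  obtain ⟨x₀, η, κ, ϖ, ι, ε, X₁, hx₀, hη, hη1, hκ, hκ1, hϖ, hι, hε, key⟩ :=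
    hOCV (D + D * D) c ca (1 / 4) hc hca (by norm_num)
  have hE0 : 0 ≤ D + D * D := by positivity
  have hE1 : (1 : ℝ) ≤ 2 * D + 2 * D ^ 2 + 1 := by nlinarith [sq_nonneg D]
  -- the constants of the steps
  obtain ⟨C₁, hC₁⟩ : ∃ C, C = 3 * Real.log (2 * D + 1) +
    2 * (3 * Real.log (4 * 3 * (2 * D + 2 * D ^ 2 + 1) + 3)) := ⟨_, rfl⟩
  obtain ⟨C₂, hC₂⟩ : ∃ C, C = 2 * Real.log (2 * ((4 * (2 + 2 * (D + D * D)) + 1) +
    (2 * D + 2 * D ^ 2 + 1) * (2 * (2 + 2 * (D + D * D)) + 1) + 1) + 1) := ⟨_, rfl⟩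
  obtain ⟨C₃, hC₃⟩ : ∃ C, C = 3 * Real.log (2 * (3 * (1 + (D + D * D)) +
        2 * (2 * D + 2 * D ^ 2 + 1) ^ 2 * (1 + (D + D * D)) + 6) + 1) +
      (3 * Real.log (2 * D + 1) +
        2 * (3 * Real.log (4 * 3 * (2 * (2 * D + 2 * D ^ 2 + 1) ^ 2) + 3))) := ⟨_, rfl⟩
  obtain ⟨C₄, hC₄⟩ : ∃ C, C = 2 * Real.log (8 * (D + D * D) + 11) := ⟨_, rfl⟩
  have l1 : 0 ≤ C₁ := by
    rw [hC₁]
    have := Real.log_nonneg (by linarith : (1 : ℝ) ≤ 2 * D + 1)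
    have := Real.log_nonneg (by linarith : (1 : ℝ) ≤ 4 * 3 * (2 * D + 2 * D ^ 2 + 1) + 3)
    positivity
  have l2 : 0 ≤ C₂ := by
    rw [hC₂]
    have := Real.log_nonneg (by
      have : 0 ≤ (2 * D + 2 * D ^ 2 + 1) * (2 * (2 + 2 * (D + D * D)) + 1) := by positivity
      linarith : (1 : ℝ) ≤ 2 * ((4 * (2 + 2 * (D + D * D)) + 1) +
    (2 * D + 2 * D ^ 2 + 1) * (2 * (2 + 2 * (D + D * D)) + 1) + 1) + 1)
    positivity
  have l3 : 0 ≤ C₃ := by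
    rw [hC₃]
    have := Real.log_nonneg (by linarith : (1 : ℝ) ≤ 2 * D + 1)
    have := Real.log_nonneg (by
      have : 0 ≤ 4 * 3 * (2 * (2 * D + 2 * D ^ 2 + 1) ^ 2) := by positivity
      linarith : (1 : ℝ) ≤ 4 * 3 * (2 * (2 * D + 2 * D ^ 2 + 1) ^ 2) + 3)
    have := Real.log_nonneg (by
      have : 0 ≤ 2 * (2 * D + 2 * D ^ 2 + 1) ^ 2 * (1 + (D + D * D)) := by positivity
      linarith : (1 : ℝ) ≤ 2 * (3 * (1 + (D + D * D)) +
        2 * (2 * D + 2 * D ^ 2 + 1) ^ 2 * (1 + (D + D * D)) + 6) + 1)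
    positivity
  have l4 : 0 ≤ C₄ := by
    rw [hC₄]
    have := Real.log_nonneg (by linarith : (1 : ℝ) ≤ 8 * (D + D * D) + 11)
    positivity
  obtain ⟨C, hC⟩ : ∃ C, C = C₁ + C₂ + C₃ := ⟨_, rfl⟩
  have hC1 : C₁ ≤ C := by linarith
  have hC2 : C₂ ≤ C := by linarith
  have hC3 : C₃ ≤ C := by linarith
  have hC0 : 0 ≤ C := by linarith
  obtain ⟨N', hN'⟩ := exists_nat_ge (200 / ι + 1)
  have h200 : (0 : ℝ) < 200 / ι := by positivity
  have hN'1 : (1 : ℝ) ≤ N' := by linarith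
  have hN'0 : 0 < N' := by
    have : (0 : ℝ) < N' := by linarith
    exact_mod_cast this
  refine ⟨x₀, η, κ, ϖ, ι / 16, ε / 2, N' + 1, hx₀, hη, hη1, hκ, hκ1, hϖ, by positivity,
    by positivity, fun β => ?_⟩
  obtain ⟨M₀, hM₀⟩ := exists_nat_ge (100 * β / ι)
  obtain ⟨M₁, hM₁⟩ : ∃ M₁, M₁ = max N' M₀ := ⟨_, rfl⟩
  have hM₁N : N' ≤ M₁ := by rw [hM₁]; exact le_max_left _ _
  have hM₁0 : (0 : ℝ) < M₁ := by
    have : 0 < M₁ := by omega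
    exact_mod_cast this
  have hM₁β : β ≤ ι / 100 * M₁ := by
    have h1 : (M₀ : ℝ) ≤ M₁ := by
      rw [hM₁]
      exact_mod_cast le_max_right _ _
    have h2 := hM₀.trans h1
    rw [div_le_iff₀ hι] at h2
    linarith
  obtain ⟨X₂, hX₂⟩ := exists_nat_ge (100 * (2 * C₄ + 6 * C + 1) / ι)
  refine ⟨N' + M₁, max X₁ (max X₂ 1), ?_⟩
  intro J F A σ X Δ r w₀ V₀ H q₀ e B a s t a' s' t' hX he hB h
  have hX1 : X₁ ≤ X := (le_max_left _ _).trans hX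
  have hX2 : X₂ ≤ X := ((le_max_left _ _).trans (le_max_right _ _)).trans hX
  have hX3 : 1 ≤ X := ((le_max_right _ _).trans (le_max_right _ _)).trans hX
  have hXr : (1 : ℝ) ≤ X := by exact_mod_cast hX3
  have hXc : 100 * (2 * C₄ + 6 * C + 1) ≤ ι * X := by
    have h1 : (X₂ : ℝ) ≤ X := by exact_mod_cast hX2
    have h2 := hX₂.trans h1
    rw [div_le_iff₀ hι] at h2
    linarith
  have hQ := h.law
  have h0 := hQ.nonneg
  have hF := h.frg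
  have htop : w₀ + (N' + 1) * Δ + X ≤ J := h.top
  have hJ : w₀ + (N' + 1) * Δ ≤ J := by omega
  have hl2 : Real.log 2 < 0.7 := by
    have := Real.log_two_lt_d9
    linarith
  have hl2' : 0.6 < Real.log 2 := by
    have := Real.log_two_gt_d9
    linarith
  -- the grid
  obtain ⟨i, hi, d, hd, hid⟩ := grid_rect
    (f₁ := fun i k => g1 F A σ (N' + 1) X Δ r w₀ V₀ H q₀ a s t a' s' t' (1 + i) k)
    (f₂ := fun i k => g2 F A σ (N' + 1) X Δ r w₀ V₀ H q₀ a s t a' s' t' (1 + i) k)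
    (f₃ := fun i k => g3 F A σ (N' + 1) X Δ r w₀ V₀ H q₀ a s t a' s' t' (1 + i) k)
    (fun i k => sub_nonneg.2 (CH_mono_cond h0 fun ω ω' _ _ h => (Prod.ext_iff.mp h).2))
    (fun i k => sub_nonneg.2 (CH_mono_cond h0 fun ω ω' _ _ h => (Prod.ext_iff.mp h).2))
    (N := N') (M := M₁) hN'0 hM₁N (S₁ := B)
    (S₂ := 2 * (X * Real.log 2) + C₄ + 2 * C * N')
    (S₃ := X * Real.log 2 + 2 * C * N')
    (fun i hi => (sum1 hQ h.XΔ (1 + i) (N' + M₁)).trans (h.dig (1 + i) (by omega)))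
    (fun k _ => by
      rw [hC₄]
      exact sum2 h.inj hQ h.XΔ h.Xr hD hF hJ (by omega) k (by rw [← hC₁]; exact hC1)
        (by rw [← hC₂]; exact hC2))
    (fun d _ => sum3 h.inj hQ h.XΔ h.Xr hD hF hJ (by omega) d (by rw [← hC₃]; exact hC3) hC0)
    (by positivity)
  have p1 : 0 ≤ g1 F A σ (N' + 1) X Δ r w₀ V₀ H q₀ a s t a' s' t' (1 + i) (i + d) :=
    sub_nonneg.2 (CH_mono_cond h0 fun ω ω' _ _ h => (Prod.ext_iff.mp h).2)
  have p2 : 0 ≤ g2 F A σ (N' + 1) X Δ r w₀ V₀ H q₀ a s t a' s' t' (1 + i) (i + d) :=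
    sub_nonneg.2 (CH_mono_cond h0 fun ω ω' _ _ h => (Prod.ext_iff.mp h).2)
  have p3 : 0 ≤ g3 F A σ (N' + 1) X Δ r w₀ V₀ H q₀ a s t a' s' t' (1 + i) (i + d) :=
    sub_nonneg.2 (CH_mono_cond h0 fun ω ω' _ _ h => (Prod.ext_iff.mp h).2)
  have hsum : B / M₁ + 2 * (2 * (X * Real.log 2) + C₄ + 2 * C * N') / N' +
      (X * Real.log 2 + 2 * C * N') / N' ≤ ι / 20 * X := by
    have s1 : B / M₁ ≤ ι / 100 * X := by
      rw [div_le_iff₀ hM₁0]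
      have := mul_le_mul_of_nonneg_right hM₁β (by positivity : (0 : ℝ) ≤ X)
      linarith
    have hN'p : (0 : ℝ) < N' := by linarith
    have hNι : 200 ≤ ι * N' := by
      have h1 : 200 / ι ≤ N' := by linarith
      rw [div_le_iff₀ hι] at h1
      linarith
    have s2 : 2 * (2 * (X * Real.log 2) + C₄ + 2 * C * N') / N' +
        (X * Real.log 2 + 2 * C * N') / N' ≤ 5 * 0.7 / 200 * ι * X +
          (2 * C₄ + 6 * C) := by
      rw [← add_div, div_le_iff₀ hN'p]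
      have t1 : (X : ℝ) * Real.log 2 ≤ 0.7 * X := by nlinarith
      have t2 : 5 * 0.7 * (X : ℝ) ≤ 5 * 0.7 / 200 * ι * X * N' := by
        have : (X : ℝ) * 200 ≤ X * (ι * N') := mul_le_mul_of_nonneg_left hNι (by linarith)
        nlinarith
      have t3 : 2 * C₄ ≤ 2 * C₄ * N' := by nlinarith
      nlinarith
    linarith
  have hid' := hid.trans hsum
  have q1 : g1 F A σ (N' + 1) X Δ r w₀ V₀ H q₀ a s t a' s' t' (1 + i) (i + d) ≤
      ι / 20 * X := by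
    linarith
  have q2 : g2 F A σ (N' + 1) X Δ r w₀ V₀ H q₀ a s t a' s' t' (1 + i) (i + d) ≤
      ι / 20 * X := by
    linarith
  have q3 : g3 F A σ (N' + 1) X Δ r w₀ V₀ H q₀ a s t a' s' t' (1 + i) (i + d) ≤
      ι / 20 * X := by
    linarith
  have hιX : 0 ≤ ι * X := by positivity
  have hiN : 1 + i ≤ N' + 1 := by omega
  have hkM : i + d < N' + M₁ := by omega
  have hw : fw w₀ Δ (1 + i) ≤ J := (Pool.FALL.fw_le hiN).trans hJ
  have hwX : fw w₀ Δ (1 + i) + X ≤ J := by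
    have := Pool.FALL.fw_le (w₀ := w₀) (Δ := Δ) hiN
    omega
  have hstr := h.str (1 + i) hiN (i + d) hkM
  have hact := h.act (1 + i) hiN (i + d) hkM
  have hrow := h.row (1 + i) hiN (i + d) hkM
  obtain ⟨ii, hii⟩ : ∃ ii, ii = 1 + i := ⟨_, rfl⟩
  obtain ⟨kk, hkk⟩ : ∃ kk, kk = i + d := ⟨_, rfl⟩
  rw [← hii, ← hkk] at q1 q2 q3 hstr hact hrow
  rw [← hii] at hw hwX hiN
  -- the application
  refine key F.Ω _ _ _ _ (Pool.Agent.H49.Ent.cond F.p A True) _ _ _ _ _ _ _ _ _ _ _ _ X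
    (ocvdata (q := fq q₀ Δ r (N' + 1) ii kk) (X := X) (σ := σ) (hF ii hiN) hQ) hX1 ?_ ?_ ?_ ?_
    hact (fun j hj E hE => ?_) ?_ ?_ ?_
  · -- (h1)
    rw [mi_T2 h.inj h0]
    have k1 := h1r (F := F) (σ := σ) (q := fq q₀ Δ r (N' + 1) ii kk) (X := X)
      (hF ii hiN) hw hQ h.time
    refine k1.trans ?_
    have k2 : CH (Pool.Agent.H49.Ent.cond F.p A True) (fun ω => (a' ω, s' ω, t' ω))
          (fun ω => (ctx F σ (fw w₀ Δ ii) (fq q₀ Δ r (N' + 1) ii kk)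
            (fv V₀ r ii) H (a ii) (s ii) (t ii) ω, F.T ω)) -
        CH (Pool.Agent.H49.Ent.cond F.p A True) (fun ω => (a' ω, s' ω, t' ω))
          (fun ω => (blk F σ (fw w₀ Δ ii) (fq q₀ Δ r (N' + 1) ii kk)
            (fv V₀ r ii) H X (a ii) (s ii) (t ii) ω,
            (ctx F σ (fw w₀ Δ ii) (fq q₀ Δ r (N' + 1) ii kk)
              (fv V₀ r ii) H (a ii) (s ii) (t ii) ω, F.T ω))) ≤ ι / 20 * X := q1
    linarith
  · -- (h1')
    have k1 := h1r_dig (F := F) (σ := σ) (q := fq q₀ Δ r (N' + 1) ii kk) (X := X)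
      (hF ii hiN) hwX hQ h.time
    refine le_trans ?_ k1
    nlinarith
  · -- (h2)
    rw [CH_T2' h.inj h0, CH_T2 h.inj h0]
    exact q2.trans (by linarith)
  · -- (h3)
    rw [CH_T2' h.inj h0, CH_T2 h.inj h0]
    exact q3.trans (by linarith)
  · -- the rows
    refine (hrow j hj E hE).trans (le_of_eq ?_)
    norm_num
  · -- (h6a)
    refine h6a_of_strip hQ _ _ (by norm_num) (by norm_num) ?_
    exact hstr.trans (by linarith)
  · -- (h6b)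
    have k1 := h6b_of_strip (p₀ := 1 / 4) hQ (lx F σ (N' + 1) X Δ r w₀ V₀ H q₀ a s t ii kk)
      (fun ω => (ctx F σ (fw w₀ Δ ii) (fq q₀ Δ r (N' + 1) ii kk)
        (fv V₀ r ii) H (a ii) (s ii) (t ii) ω, Pool.OCV.dgv X (nx F σ (N' + 1) X Δ r w₀ V₀ H q₀ a
          s t a' s' t' ii kk) ω, T2 F (a ii) (s ii) (t ii) a' s' t' ω))
      (sx F r V₀ H a s t a' s' t' ii) le_rfl hstr
    have e1 : 2 * (ε / 2) = ε := by ring
    rw [e1] at k1
    exact k1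
  · -- (h7)
    have k1 : CH (Pool.Agent.H49.Ent.cond F.p A True)
        (Pool.OCV.dgv X (nu2 F σ (fw w₀ Δ ii) (fq q₀ Δ r (N' + 1) ii kk) (fv V₀ r ii) H X
          (a ii) (s ii) (t ii) a' s' t'))
        (fun ω => (ctx F σ (fw w₀ Δ ii) (fq q₀ Δ r (N' + 1) ii kk)
          (fv V₀ r ii) H (a ii) (s ii) (t ii) ω, T2 F (a ii) (s ii) (t ii) a' s' t' ω)) ≤
      CH (Pool.Agent.H49.Ent.cond F.p A True)
        (Pool.OCV.dgv X (nu2 F σ (fw w₀ Δ ii) (fq q₀ Δ r (N' + 1) ii kk) (fv V₀ r ii) H X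
          (a ii) (s ii) (t ii) a' s' t'))
        (fun ω => (ctx F σ (fw w₀ Δ ii) (fq q₀ Δ r (N' + 1) ii kk)
          (fv V₀ r ii) H (a ii) (s ii) (t ii) ω,
          (ctx F σ (fw w₀ Δ ii) (fq q₀ Δ r (N' + 1) ii kk)
          (fv V₀ r ii) H (a ii) (s ii) (t ii) ω, T2 F (a ii) (s ii) (t ii) a' s' t' ω))) :=
      CH_mono_cond h0 fun ω ω' _ _ e => by
        have e1 := Prod.ext_iff.mp e
        exact Prod.ext e1.1 e
    linarith

/-- **(HPLA)**, lines without strips, one family. -/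
theorem hpl_one : HplOneStmt := hpl_one_of Pool.OCV.ocvr2

/-- The form with one slope. -/
theorem hone : Pool.S6H.HOneStmt := by
  intro c ca hc hca
  obtain ⟨x₀, η, κ, ϖ, ι, ε, N, h1, h2, h3, h4, h5, h6, h7, h8, key⟩ :=
    hpl_one 4 c ca (by norm_num) hc hca
  refine ⟨x₀, η, κ, ϖ, ι, ε, N, h1, h2, h3, h4, h5, h6, h7, h8, fun β => ?_⟩
  obtain ⟨M, X₀, key⟩ := key β
  refine ⟨M, X₀, ?_⟩
  intro J F A σ X Δ r w₀ V₀ H q₀ D e B a t s a' t' hX he hB h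
  refine key J F A σ X Δ r w₀ V₀ H q₀ e B a (fun _ => s) t a' s t' hX he hB
    ⟨h.inj, h.law, h.XΔ, h.Xr, h.top,
      fun i hi => Pool.FALL.frg_mono h.D4 (h.frg i hi), h.time, h.dig, h.act, h.row,
      fun i hi k hk => ?_⟩
  refine le_trans (Pr_mono_all h.law.nonneg fun ω _ hω => ?_) (h.str i hi k hk)
  obtain ⟨n, k1, k2, z, k3⟩ := hω
  exact ⟨n, z, k1, k2, k3⟩

end Pool.HPL
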