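import Pool.Agent.H23.S6E.Ld4
import Pool.Agent.H36.S6.RowF

/-!
# The pairs of rows beyond a static box

`vdf_lift`: the deficit of the rows of the first coordinate in a box with equal precisions of the
other two coordinates, by the box with more digits of both. `pair_block`: one block of the second
and third rows together, on an event.
-/

set_option autoImplicit false

namespace Pool.HPR

open Finset Real
open Pool.Agent.H49.Ent Pool.Agent.H32.Dense Pool.STK Pool.KA Pool.KSAT Pool.K2S Pool.PB Pool.KS6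
  Pool.Sel51 Pool.KA.Vd Pool.S6C

section fam

variable {J : ℕ} {F : Fam 3 J} {p : F.Ω → ℝ} {σ : Fin 3 → Fin 3} {a s t : F.Ω → ℝ} {τ : Type}

/-- The deficit of the rows of the first coordinate does not depend on the common precision of the
other two. -/
theorem vdf_lift (hp : IsLaw p) (hσ : Function.Bijective σ) {r N N' : ℕ} {B : ℝ} (hB : 1 ≤ B)
    (h1 : r ≤ N) (h2 : N ≤ N') (hb : ∀ ω, 0 < p ω → |a ω| ≤ B ∧ |s ω| ≤ B ∧ |t ω| ≤ B)
    (Θ : F.Ω → τ) : F.vdf p σ r N N a s t Θ ≤ F.vdf p σ r N' N' a s t Θ + (K1 B + K2 B) := by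
  have h0 := hp.nonneg
  have k1 := CH_le_add h0 (F.X N') (F.X N) (fun ω => (F.sbx σ r N' N' a s t ω, Θ ω))
  have k2 : CH p (F.X N) (fun ω => (F.sbx σ r N' N' a s t ω, Θ ω)) ≤
      CH p (F.X N) (fun ω => (F.sbx σ r N N a s t ω, Θ ω)) :=
    CH_mono_cond h0 fun ω ω' _ _ e => Prod.ext (sbx_lift le_rfl h2 h2 (Prod.ext_iff.mp e).1)
      (Prod.ext_iff.mp e).2
  obtain ⟨W, hW⟩ : ∃ W, W = fun ω => (F.X N ω, (F.sbx σ r N' N' a s t ω, Θ ω)) := ⟨_, rfl⟩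
  have k3 := CH_le_add h0 (F.X N') (F.sbx σ N N N a s t) W
  have k4 := CH_sbx_X (σ := σ) (a := a) (s := s) (t := t) hp hB (le_refl N) (le_refl N)
    (le_refl N) hb W (fun ω ω' _ _ e => by rw [hW] at e; exact (Prod.ext_iff.mp e).1)
    (fd_sbx (σ := σ) (r := r) (U := N') (P := N') _ fun ω ω' _ _ e => by
      rw [hW] at e
      exact (Prod.ext_iff.mp (Prod.ext_iff.mp e).2).1)
  have k5 := CH_le_add h0 (F.X N') (F.sbx σ N' N' N' a s t)
    (fun ω => (F.sbx σ N N N a s t ω, W ω))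
  have k6 := CH_sbx_rate (σ := σ) (a := a) (s := s) (t := t) hp h2 (le_refl N') (le_refl N')
    (fun ω => (F.sbx σ N N N a s t ω, W ω)) (fun ω ω' _ _ e => by
      have e1 := (Prod.ext_iff.mp e).1
      have e2 := (Prod.ext_iff.mp e).2
      rw [hW] at e2
      have e3 := (Prod.ext_iff.mp (Prod.ext_iff.mp e2).2).1
      have c1 := (sbx_ext).1 e1
      have c2 := (sbx_ext).1 e3
      exact (sbx_ext).2 ⟨c1.1, c1.2.1, c2.2.2.1, c2.2.2.2⟩)
  have k7 := CH_X_sbx (σ := σ) (a := a) (s := s) (t := t) hp hσ hB (le_refl N') (le_refl N')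
    (le_refl N') hb (fun ω => (F.sbx σ N' N' N' a s t ω, (F.sbx σ N N N a s t ω, W ω)))
    (fun _ _ _ _ e => (Prod.ext_iff.mp e).1)
  rw [← hW] at k1
  unfold Fam.vdf
  have e1 : (((N' : ℝ) - N) + ((N' : ℝ) - N') + ((N' : ℝ) - N')) * Real.log 2 =
      ((N' : ℝ) - N) * Real.log 2 := by ring
  rw [e1] at k6
  have e2 : (((N' : ℝ) - r) + ((N' : ℝ) - N')) * Real.log 2 =
      (((N : ℝ) - r) + ((N : ℝ) - N)) * Real.log 2 + ((N' : ℝ) - N) * Real.log 2 := by ring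
  rw [e2]
  linarith

/-- One block of the second and third rows together, on an event. -/
theorem pair_block (hp : IsLaw p) (hσ : Function.Bijective σ) {r U P k : ℕ} (h1 : r ≤ P)
    (h2 : U ≤ P) (hb : ∀ ω, 0 < p ω → |a ω| ≤ 8 ∧ |s ω| ≤ 8 ∧ |t ω| ≤ 8) {E : F.Ω → Prop}
    {ϖ : ℝ} (hϖ : 0 < ϖ) (hE : ϖ ≤ Pe p E) {c εR εL ls : ℝ}
    (hR : CH (Pool.Agent.H49.Ent.cond p E True) (F.X (P + k)) (fun ω => (F.X P ω, F.W ω)) ≤
      (3 - c) * k * Real.log 2 + εR)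
    (hL : F.vdf p σ r (U + k) (P + k) a s t F.W ≤ εL + ls) :
    CH (Pool.Agent.H49.Ent.cond p E True) (F.sbx σ r (U + k) (P + k) a s t)
      (fun ω => (F.sbx σ r U P a s t ω, F.W ω)) ≤
      (2 - c) * k * Real.log 2 + εR + (εL + ls) / ϖ +
        ((K2 8 + Real.log 2) / ϖ + (K1 8 + K2 8)) := by
  have k1 := h5_gen (σ := σ) (a := a) (s := s) (t := t) (r := r) (U := U) (P := P) (r' := r)
    (U' := U + k) (P' := P + k) hp hσ (by norm_num : (1 : ℝ) ≤ 8) le_rfl (Nat.le_add_right U k)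
    (Nat.le_add_right P k) h1 h2 (by omega) (by omega) hb F.W E hϖ hE
  have e1 : (((r : ℝ) - r) + (((U + k : ℕ) : ℝ) - U) - 2 * (((P + k : ℕ) : ℝ) - P)) *
      Real.log 2 = -(k * Real.log 2) := by
    push_cast
    ring
  rw [e1] at k1
  have k2 : (F.vdf p σ r (U + k) (P + k) a s t F.W + (K2 8 + Real.log 2)) / ϖ ≤
      (εL + ls) / ϖ + (K2 8 + Real.log 2) / ϖ := by
    rw [← add_div]
    exact div_le_div_of_nonneg_right (by linarith) hϖ.le
  have e2 : (2 - c) * k * Real.log 2 = (3 - c) * k * Real.log 2 - k * Real.log 2 := by ring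
  rw [e2]
  linarith

end fam

section cls

variable {S : PCl 3} {a R h₁ : ℝ} {i₀ : Fin 3} {c s₂ : ℝ} {r : ℝ → ℝ} {D : Set ℝ} {σ : ℝ → Row}
  {act : ℚ → ℝ} {K : Set ℝ} {W : ℝ → ℝ} {v₁ t : ℚ} {e₁ Q₀ P g v₀ v ρ a₀ α : ℝ}

/-- Frames of one window (with side labels), the natural forms have no more digits than the
directions: the rows of the first coordinate are full. -/
theorem hrow_zero (hN : NATStmt) (hC : Cs S a R h₁ i₀ c s₂ r D σ)
    (hL : Loc S i₀ c s₂ r D σ act K W v₁ t e₁ Q₀ P g v₀ v ρ a₀ α) {ε : ℝ} (hε : 0 < ε) :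
    ∃ ε₀ X₀ : ℝ, 0 < ε₀ ∧ 0 < X₀ ∧ ∀ X : ℝ, 0 < X → X ≤ X₀ → ∀ us : ℚ, |(us : ℝ) - W g| ≤ X →
    0 ≤ (σ 1).rot us → (us : ℝ) + (σ 1).rot us ≤ (σ 1).th us → 0 ≤ (us : ℝ) →
    Clp S (fun J F A => ∀ sg : Fin 3 → Fin 3, Function.Bijective sg → sg 0 = i₀ →
      ∀ zs : F.Ω → Pln, NL F A sg ⌊(us : ℝ) * J⌋₊ ⌊((σ 1).rot us - ε₀ * X) * J⌋₊
        ⌊((σ 1).th us - ε₀ * X) * J⌋₊ zs →
      ∀ (τ : Type) (κ : F.Ω → τ), SL F A ⌊(us : ℝ) * J⌋₊ κ →
      ∀ (a s t : F.Ω → ℝ) (E : ℝ), (∀ ω ω', A ω → A ω' → κ ω = κ ω' → zs ω = zs ω' →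
        a ω = a ω' ∧ s ω = s ω' ∧ t ω = t ω') →
      (∀ ω, A ω → |a ω| ≤ 8 ∧ |s ω| ≤ 8 ∧ |t ω| ≤ 8) →
      1 ≤ E → Real.log E ≤ ε₀ * X * J →
      Fcl F A us ((us : ℝ) + (σ 1).rot us) ((σ 1).th us) E zs a s t →
      ∀ (r N : ℕ), |(r : ℝ) / J - us - (P - g)| ≤ X → r ≤ N →
        (N : ℝ) ≤ r + (σ 1).rot us * J →
        F.vdf (Pool.Agent.H49.Ent.cond F.p A True) sg r N N a s t F.W ≤ ε * X * J) := by
  obtain ⟨ε₁, X₁, hε₁, hX₁, h⟩ := nat_lv hN hC hL (ε := ε / 2) (by positivity)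
  refine ⟨ε₁ / 2, X₁, by positivity, hX₁, fun X hX hXX us hus hrot hth hus0 => ?_⟩
  obtain ⟨J₂, hJ₂⟩ := exists_nat_ge ((K1 8 + K2 8) / (ε / 2 * X) + Real.log 4 / (ε₁ / 2 * X) + 1)
  have c1 := K1_nonneg (show (1 : ℝ) ≤ 8 by norm_num)
  have c2 := K2_nonneg (show (1 : ℝ) ≤ 8 by norm_num)
  have l4 : 0 < Real.log 4 := Real.log_pos (by norm_num)
  refine Clp.mono (J₂ := J₂) ((h X hX hXX us hus).and hC.evlaw) ?_
  rintro J hJ F A ⟨h1, hlaw⟩ sg hsg h0 zs hz τ κ hκ a s t E hdet hbd hE hlE hcl r N hr hrN hN1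
  have hJ' : (K1 8 + K2 8) / (ε / 2 * X) + Real.log 4 / (ε₁ / 2 * X) + 1 ≤ (J : ℝ) :=
    hJ₂.trans (by exact_mod_cast hJ)
  have g1 : 0 ≤ (K1 8 + K2 8) / (ε / 2 * X) := by positivity
  have g2 : 0 ≤ Real.log 4 / (ε₁ / 2 * X) := by positivity
  have hJ0 : (0 : ℝ) < J := by linarith
  have hJc : K1 8 + K2 8 ≤ ε / 2 * X * J := by
    have : (K1 8 + K2 8) / (ε / 2 * X) ≤ J := by linarith
    rw [div_le_iff₀ (by positivity)] at this
    linarith
  have hJ4 : Real.log 4 ≤ ε₁ / 2 * X * J := by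
    have : Real.log 4 / (ε₁ / 2 * X) ≤ J := by linarith
    rw [div_le_iff₀ (by positivity)] at this
    linarith
  have hr0 : 0 ≤ (σ 1).rot us * J := mul_nonneg hrot hJ0.le
  have hnF := Nat.floor_le hr0
  have hnF' := Nat.lt_floor_add_one ((σ 1).rot us * (J : ℝ))
  obtain ⟨nF, hnF0⟩ : ∃ nF : ℕ, nF = ⌊(σ 1).rot us * J⌋₊ := ⟨_, rfl⟩
  rw [← hnF0] at hnF hnF'
  have hNN : N ≤ r + nF := by
    have h3 : ((N - r : ℕ) : ℝ) ≤ (σ 1).rot us * J := by
      rw [Nat.cast_sub hrN]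
      linarith
    have h4 : N - r ≤ nF := by
      rw [hnF0]
      exact Nat.le_floor h3
    omega
  have hthJ : ((us : ℝ) + (σ 1).rot us) * J ≤ (σ 1).th us * J :=
    mul_le_mul_of_nonneg_right hth hJ0.le
  have e1 : (r : ℝ) / J * J = r := div_mul_cancel₀ _ hJ0.ne'
  have p3 : 0 ≤ (us : ℝ) * J := by positivity
  have p4 : 0 ≤ ((us : ℝ) + (σ 1).rot us) * J := by positivity
  have p5 : 0 ≤ (σ 1).th us * J := p4.trans hthJ
  have a3 := Nat.floor_le p3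
  have a4 := Nat.floor_le p4
  have b3 := Nat.lt_floor_add_one ((us : ℝ) * J)
  have b4 := Nat.lt_floor_add_one (((us : ℝ) + (σ 1).rot us) * J)
  have b5 := Nat.lt_floor_add_one ((σ 1).th us * J)
  have hlE4 : Real.log (4 * E) ≤ ε₁ * X * J := by
    rw [Real.log_mul (by norm_num) (by linarith)]
    linarith
  have hmono : ∀ y : ℝ, ⌊(y - ε₁ * X) * (J : ℝ)⌋₊ ≤ ⌊(y - ε₁ / 2 * X) * (J : ℝ)⌋₊ := by
    intro y
    refine Nat.floor_le_floor (mul_le_mul_of_nonneg_right ?_ hJ0.le)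
    have : 0 ≤ ε₁ * X := by positivity
    linarith
  have key := h1 sg hsg h0 zs (hz.mono (hmono _) (hmono _)) τ κ hκ a s t (4 * E) hdet
    (by linarith) hlE4 r (r + nF) r (r + nF) (r + nF) ((r : ℝ) / J - us) hr
    (by
      have : ((us : ℝ) + ((r : ℝ) / J - us)) * J = r := by
        rw [add_sub_cancel, e1]
      rw [this]
      linarith)
    (by
      have : ((us : ℝ) + (σ 1).rot us + ((r : ℝ) / J - us)) * J =
          r / J * J + (σ 1).rot us * J := by ring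
      rw [this, e1]
      push_cast
      linarith)
    (by
      have : ((σ 1).th us + ((r : ℝ) / J - us)) * J =
          r / J * J + (σ 1).th us * J - us * J := by ring
      rw [this, e1]
      push_cast
      linarith) le_rfl le_rfl (Nat.le_add_right _ _) le_rfl
    (fun ω hω => by
      refine fnr_lvl (by linarith) (hcl ω hω) ?_ ?_ ?_
      · have : ((⌊(us : ℝ) * J⌋₊ + (r + nF) : ℕ) : ℝ) ≤
            ((r + ⌊((us : ℝ) + (σ 1).rot us) * J⌋₊ + 2 : ℕ) : ℝ) := by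
          push_cast
          linarith
        exact_mod_cast this
      · have : ((⌊((us : ℝ) + (σ 1).rot us) * J⌋₊ + (r + nF) : ℕ) : ℝ) ≤
            ((r + nF + ⌊(σ 1).th us * J⌋₊ + 2 : ℕ) : ℝ) := by
          push_cast
          linarith
        exact_mod_cast this
      · have : ((⌊(us : ℝ) * J⌋₊ + (r + nF) : ℕ) : ℝ) ≤
            ((r + ⌊(σ 1).th us * J⌋₊ + 2 : ℕ) : ℝ) := by
          push_cast
          linarith
        exact_mod_cast this)
  have k1 := vdf_cond (σ := sg) (a := a) (s := s) (t := t) (r := r) (U := r + nF) (N := r + nF)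
    hlaw F.W (fun ω => (κ ω, (zs ω, F.W ω))) (by
      intro ω ω' _ _ e
      exact (Prod.ext_iff.mp (Prod.ext_iff.mp e).2).2)
  have k2 := vdf_lift (σ := sg) (a := a) (s := s) (t := t) hlaw hsg
    (show (1 : ℝ) ≤ 8 by norm_num) hrN hNN (fun ω hω => hbd ω (ldm_mem hω)) F.W
  linarith

end cls

end Pool.HPR
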