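import Pool.Agent.H50.S6H.RowA
import Pool.Agent.H50.S6H.RowB

/-!
# The pairs of rows: the losses of one family
-/

set_option autoImplicit false

namespace Pool.HPR

open Finset Real
open Pool.Agent.H49.Ent Pool.Agent.H32.Dense Pool.STK Pool.KA Pool.KSAT Pool.K2S Pool.PB Pool.KS6
  Pool.Sel51 Pool.KA.Vd Pool.S6C Pool.FALL

theorem hrow_fin {J : ℕ} {F : Fam 3 J} {A : F.Ω → Prop} {sg : Fin 3 → Fin 3}
    {N w₀ Δ r V₀ H X k X' jm : ℕ} {a' s t' : F.Ω → ℝ} {P g L c ϖ δ x Cr err B₁ C₁ : ℝ}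
    (hPA : 0 < Pe F.p A) (hσ : Function.Bijective sg) (hϖ : 0 < ϖ) (hδ : 0 < δ)
    (hbd : ∀ ω, A ω → |a' ω| ≤ 8 ∧ |s ω| ≤ 8 ∧ |t' ω| ≤ 8)
    (gR : ∀ E : F.Ω → Prop, Sub E A → ϖ * Pe F.p A ≤ Pe F.p E →
      ∀ P₁ P₂ : ℕ, P₁ ≤ P₂ → |(P₁ : ℝ) - P * J| ≤ Cr * x * J → |(P₂ : ℝ) - P * J| ≤ Cr * x * J →
      CH (Pool.Agent.H49.Ent.cond F.p E True) (F.X P₂) (fun ω => (F.X P₁ ω, F.W ω)) ≤
        (3 - c) * ((P₂ : ℝ) - P₁) * Real.log 2 + δ / 8 * (x * J))
    (num : ∀ i ≤ N, ∀ q : ℕ, |(q : ℝ) - (P - g) * J| ≤ L / 2 * J → ∀ kk : ℕ, kk ≤ X →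
      |((q + (fv V₀ r i + H) + fw w₀ Δ i + kk : ℕ) : ℝ) - P * J| ≤ Cr * x * J)
    (hsum : ∀ i ≤ N, ∀ j, (j + 1) * k ≤ X → ∀ qb n : ℕ, |(qb : ℝ) - (P - g) * J| ≤ L / 2 * J →
      |((qb + n * X' : ℕ) : ℝ) - (P - g) * J| ≤ L / 2 * J →
      ∑ m ∈ range n, max 0 (F.vdf (Pool.Agent.H49.Ent.cond F.p A True) sg
        (qb + m * X' + fw w₀ Δ i) (qb + m * X' + fv V₀ r i + fw w₀ Δ i + (j + 1) * k)
        (qb + m * X' + (fv V₀ r i + H) + fw w₀ Δ i + (j + 1) * k) a' s t' F.W - err) ≤ B₁ * X)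
    (hB₁ : 0 ≤ B₁) (herr : err / ϖ ≤ δ / 4 * X)
    (hKK : (K2 8 + Real.log 2) / ϖ + (K1 8 + K2 8) ≤ δ / 4 * X) (hxX : x * J ≤ 2 * X)
    (hjm : ∀ j, (j + 1) * k ≤ X → j < jm) (hC₁ : ((N : ℝ) + 1) * (jm * (B₁ / ϖ)) ≤ C₁) :
    ∃ loss : ℕ → ℝ, (∀ q, 0 ≤ loss q) ∧
      (∀ qb n : ℕ, |(qb : ℝ) - (P - g) * J| ≤ L / 2 * J →
        |((qb + n * X' : ℕ) : ℝ) - (P - g) * J| ≤ L / 2 * J →
        ∑ m ∈ range n, loss (qb + m * X') ≤ C₁ * X) ∧
      ∀ i ≤ N, ∀ q : ℕ, |(q : ℝ) - (P - g) * J| ≤ L / 2 * J → ∀ j : ℕ,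
      (j + 1) * k ≤ X → ∀ E : F.Ω → Prop,
      ϖ ≤ Pe (Pool.Agent.H49.Ent.cond F.p A True) E →
      CH (Pool.Agent.H49.Ent.cond (Pool.Agent.H49.Ent.cond F.p A True) E True)
        (F.sbx sg (q + fw w₀ Δ i) (q + fv V₀ r i + fw w₀ Δ i + (j + 1) * k)
          (q + (fv V₀ r i + H) + fw w₀ Δ i + (j + 1) * k) a' s t')
        (fun ω => (F.sbx sg (q + fw w₀ Δ i) (q + fv V₀ r i + fw w₀ Δ i + j * k)
          (q + (fv V₀ r i + H) + fw w₀ Δ i + j * k) a' s t' ω, F.W ω)) ≤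
        (2 - c) * k * Real.log 2 + δ * X + loss q := by
  have hpA : ∀ ω, 0 < Pool.Agent.H49.Ent.cond F.p A True ω → A ω := fun ω hω => ldm_mem hω
  have hp := isLaw_cond F.isLaw hPA
  obtain ⟨ps, hps⟩ : ∃ ps : ℕ → ℕ → ℕ → ℝ, ps = fun i j q => max 0
      (F.vdf (Pool.Agent.H49.Ent.cond F.p A True) sg (q + fw w₀ Δ i)
        (q + fv V₀ r i + fw w₀ Δ i + (j + 1) * k)
        (q + (fv V₀ r i + H) + fw w₀ Δ i + (j + 1) * k) a' s t' F.W - err) := ⟨_, rfl⟩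
  have hps0 : ∀ i j q, 0 ≤ ps i j q := by
    intro i j q
    rw [hps]
    exact le_max_left _ _
  obtain ⟨fl, hfl⟩ : ∃ fl : ℕ → ℕ → ℕ → ℝ, fl = fun i j q =>
      if (j + 1) * k ≤ X then ps i j q / ϖ else 0 := ⟨_, rfl⟩
  have hfl0 : ∀ i j q, 0 ≤ fl i j q := by
    intro i j q
    rw [hfl]
    show 0 ≤ if (j + 1) * k ≤ X then ps i j q / ϖ else 0
    split_ifs
    · exact div_nonneg (hps0 i j q) hϖ.le
    · exact le_rfl
  have hX0 : (0 : ℝ) ≤ X := Nat.cast_nonneg _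
  refine ⟨fun q => ∑ i ∈ range (N + 1), ∑ j ∈ range jm, fl i j q,
    fun q => Finset.sum_nonneg fun i _ => Finset.sum_nonneg fun j _ => hfl0 i j q, ?_, ?_⟩
  · intro qb n hq1 hq2
    have hij : ∀ i ≤ N, ∀ j, (j + 1) * k ≤ X →
        ∑ m ∈ range n, ps i j (qb + m * X') ≤ B₁ * X := by
      intro i hi j hj
      rw [hps]
      exact hsum i hi j hj qb n hq1 hq2
    have e1 : ∑ m ∈ range n, ∑ i ∈ range (N + 1), ∑ j ∈ range jm, fl i j (qb + m * X') =
        ∑ i ∈ range (N + 1), ∑ j ∈ range jm, ∑ m ∈ range n, fl i j (qb + m * X') := by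
      rw [Finset.sum_comm]
      exact Finset.sum_congr rfl fun i _ => Finset.sum_comm
    rw [e1]
    have e2 : ∑ i ∈ range (N + 1), ∑ j ∈ range jm, ∑ m ∈ range n, fl i j (qb + m * X') ≤
        ∑ _i ∈ range (N + 1), ∑ _j ∈ range jm, B₁ * X / ϖ := by
      refine Finset.sum_le_sum fun i hi => Finset.sum_le_sum fun j _ => ?_
      by_cases hj : (j + 1) * k ≤ X
      · have h1 : ∀ m, fl i j (qb + m * X') = ps i j (qb + m * X') / ϖ := by
          intro m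
          rw [hfl]
          show (if (j + 1) * k ≤ X then ps i j (qb + m * X') / ϖ else 0) = _
          rw [if_pos hj]
        simp only [h1]
        rw [← Finset.sum_div]
        exact div_le_div_of_nonneg_right (hij i (by
          have := Finset.mem_range.1 hi
          omega) j hj) hϖ.le
      · have h1 : ∀ m, fl i j (qb + m * X') = 0 := by
          intro m
          rw [hfl]
          show (if (j + 1) * k ≤ X then ps i j (qb + m * X') / ϖ else 0) = _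
          rw [if_neg hj]
        simp only [h1]
        rw [Finset.sum_const_zero]
        positivity
    refine e2.trans ?_
    rw [Finset.sum_const, Finset.sum_const, Finset.card_range, Finset.card_range, nsmul_eq_mul,
      nsmul_eq_mul]
    have e3 : ((N + 1 : ℕ) : ℝ) * ((jm : ℝ) * (B₁ * X / ϖ)) =
        ((N : ℝ) + 1) * (jm * (B₁ / ϖ)) * X := by
      push_cast
      ring
    rw [e3]
    exact mul_le_mul_of_nonneg_right hC₁ hX0
  · intro i hi q hq j hj EE hEE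
    have hjm' : j < jm := hjm j hj
    have n1 := num i hi q hq (j * k) (by
      have : j * k ≤ (j + 1) * k := Nat.mul_le_mul_right k (Nat.le_succ j)
      omega)
    have n2 := num i hi q hq ((j + 1) * k) hj
    have e9 : q + (fv V₀ r i + H) + fw w₀ Δ i + j * k + k =
      q + (fv V₀ r i + H) + fw w₀ Δ i + (j + 1) * k := by ring
    have e8 : q + fv V₀ r i + fw w₀ Δ i + j * k + k =
      q + fv V₀ r i + fw w₀ Δ i + (j + 1) * k := by ring
    have hEE' : ϖ * Pe F.p A ≤ Pe F.p (fun ω => A ω ∧ EE ω) := by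
      rw [Pe_cond EE, le_div_iff₀ hPA] at hEE
      exact hEE
    have hR := gR (fun ω => A ω ∧ EE ω) (fun _ h => h.1) hEE'
      (q + (fv V₀ r i + H) + fw w₀ Δ i + j * k)
      (q + (fv V₀ r i + H) + fw w₀ Δ i + j * k + k) (Nat.le_add_right _ _) n1
      (by rw [e9]; exact n2)
    rw [← rowf_cond F.p hPA.ne'] at hR
    have hR' : CH (Pool.Agent.H49.Ent.cond (Pool.Agent.H49.Ent.cond F.p A True) EE True)
        (F.X (q + (fv V₀ r i + H) + fw w₀ Δ i + j * k + k))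
        (fun ω => (F.X (q + (fv V₀ r i + H) + fw w₀ Δ i + j * k) ω, F.W ω)) ≤
        (3 - c) * k * Real.log 2 + δ / 8 * (x * J) := by
      refine hR.trans (le_of_eq ?_)
      push_cast
      ring
    have hLv : F.vdf (Pool.Agent.H49.Ent.cond F.p A True) sg (q + fw w₀ Δ i)
        (q + fv V₀ r i + fw w₀ Δ i + j * k + k)
        (q + (fv V₀ r i + H) + fw w₀ Δ i + j * k + k) a' s t' F.W ≤ err + ps i j q := by
      rw [e8, e9, hps]
      have := le_max_right 0 (F.vdf (Pool.Agent.H49.Ent.cond F.p A True) sg (q + fw w₀ Δ i)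
        (q + fv V₀ r i + fw w₀ Δ i + (j + 1) * k)
        (q + (fv V₀ r i + H) + fw w₀ Δ i + (j + 1) * k) a' s t' F.W - err)
      linarith only [this]
    have key := pair_block (F := F) hp hσ (r := q + fw w₀ Δ i)
      (U := q + fv V₀ r i + fw w₀ Δ i + j * k)
      (P := q + (fv V₀ r i + H) + fw w₀ Δ i + j * k) (k := k)
      (by omega) (by omega) (fun ω hω => hbd ω (hpA ω hω)) hϖ hEE hR' hLv
    rw [e8, e9] at key
    refine key.trans ?_
    have l1 : ps i j q / ϖ ≤ ∑ i ∈ range (N + 1), ∑ j ∈ range jm, fl i j q := by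
      have h1 : fl i j q = ps i j q / ϖ := by
        rw [hfl]
        show (if (j + 1) * k ≤ X then ps i j q / ϖ else 0) = _
        rw [if_pos hj]
      rw [← h1]
      have h2 : fl i j q ≤ ∑ j ∈ range jm, fl i j q :=
        Finset.single_le_sum (f := fun j => fl i j q) (fun j _ => hfl0 i j q)
          (Finset.mem_range.2 hjm')
      have h3 : ∑ j ∈ range jm, fl i j q ≤ ∑ i ∈ range (N + 1), ∑ j ∈ range jm, fl i j q :=
        Finset.single_le_sum (f := fun i => ∑ j ∈ range jm, fl i j q)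
          (fun i _ => Finset.sum_nonneg fun j _ => hfl0 i j q)
          (Finset.mem_range.2 (by omega))
      exact h2.trans h3
    have l2 : δ / 8 * (x * J) ≤ δ / 4 * X := by
      have := mul_le_mul_of_nonneg_left hxX (by positivity : 0 ≤ δ / 8)
      linarith only [this]
    rw [add_div]
    have hδX : 0 ≤ δ * X := by positivity
    linarith only [herr, hKK, l1, l2, hδX]

end Pool.HPR
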