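import Pool.Agent.H50.S6H.RowC
import Pool.Agent.H19.S6H.Frm

/-!
# The pairs of rows, the normal forms have more digits than the directions
-/

set_option autoImplicit false

namespace Pool.HPR

open Finset Real
open Pool.Agent.H49.Ent Pool.Agent.H32.Dense Pool.STK Pool.KA Pool.KSAT Pool.K2S Pool.PB Pool.KS6
  Pool.Sel51 Pool.KA.Vd Pool.S6C Pool.FALL

section cls

variable {S : PCl 3} {a₁ R h₁ : ℝ} {i₀ : Fin 3} {c s₂ : ℝ} {r₁ : ℝ → ℝ} {D : Set ℝ} {σ : ℝ → Row}
  {act : ℚ → ℝ} {K : Set ℝ} {W : ℝ → ℝ} {v₁ t₁ : ℚ} {e₁ Q₀ P g v₀ v a₀ α : ℝ}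

theorem hrow_pos (hLD : LDTwoStmt) (hC : Cs S a₁ R h₁ i₀ c s₂ r₁ D σ)
    (hLoc : Loc S i₀ c s₂ r₁ D σ act K W v₁ t₁ e₁ Q₀ P g v₀ v v a₀ α) (hv : 0 < v)
    (hg0 : 0 < g - W g - v₀) {Cw Cz εL : ℝ} (hCw : 1 ≤ Cw) (hCz : 0 < Cz) (hεL : 0 < εL) :
    ∃ ε₀ x₁ : ℝ, 0 < ε₀ ∧ 0 < x₁ ∧
    ∀ (rc : ℚ → ℝ) (pe x L e G : ℝ), 0 < x → x ≤ x₁ → L ≤ Cz * x → 0 < e → e ≤ ε₀ * x →
    Zoh σ act rc v₁ t₁ e₁ pe P g (W g) v₀ v a₀ α L e G → ∀ (N : ℕ) (ul us : ℚ),
    |(ul : ℝ) - W g| ≤ Cw * x → |(us : ℝ) - W g| ≤ Cw * x →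
    Clp S (fun J F A => ∀ (w₀ Δ r V₀ H X Va Rt Pu PN : ℕ) (sg : Fin 3 → Fin 3)
      (a t : ℕ → F.Ω → ℝ) (s a' t' al nu kk bb : F.Ω → ℝ) (zl zs : F.Ω → Pln), sg 0 = i₀ →
      HLv J N g (W g) v₀ v L e ul us w₀ Δ r V₀ H X → X = ⌊x * J⌋₊ →
      Pool.S6HF.HFr F A sg N w₀ Δ r V₀ H X Va Rt Pu PN a t s a' t' al nu kk bb →
      FNr F A sg σ g (W g) v₀ v v e (10 * e) ul us Va Rt s a' t' zl zs →
      ∃ X' : ℕ, 0 < X' ∧ (X' : ℝ) ≤ (4 * (1 + v) * Cw + 7) * X ∧
      ∀ k : ℕ, ∀ i ≤ N, ∀ j, (j + 1) * k ≤ X → ∀ qb n : ℕ, |(qb : ℝ) - (P - g) * J| ≤ L / 2 * J →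
      |((qb + n * X' : ℕ) : ℝ) - (P - g) * J| ≤ L / 2 * J →
      ∑ m ∈ range n, max 0 (F.vdf (Pool.Agent.H49.Ent.cond F.p A True) sg
        (qb + m * X' + fw w₀ Δ i) (qb + m * X' + fv V₀ r i + fw w₀ Δ i + (j + 1) * k)
        (qb + m * X' + (fv V₀ r i + H) + fw w₀ Δ i + (j + 1) * k) a' s t' F.W - εL * x * J) ≤
        (2 * (2 * (v + v) * Cw + 28) + 6) * X) := by
  have hLD' := hLD S a₁ R h₁ i₀ c s₂ r₁ D σ hC act K W v₁ t₁ e₁ Q₀ P g v₀ v v a₀ α hLoc
  generalize W g = wr at hLD' hg0 ⊢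
  obtain ⟨B₁, hB₁⟩ : ∃ B₁ : ℝ, B₁ = 2 * (2 * (v + v) * Cw + 28) + 6 := ⟨_, rfl⟩
  obtain ⟨Cy, hCy⟩ : ∃ Cy : ℝ, Cy = Cz + 2 * (1 + v) * Cw + 2 := ⟨_, rfl⟩
  obtain ⟨Cg, hCg⟩ : ∃ Cg : ℝ, Cg = 2 * (1 + v) * Cw + 32 + Cy := ⟨_, rfl⟩
  have hCw0 : 0 < Cw := by linarith only [hCw]
  have hvCw : 0 ≤ v * Cw := by positivity
  have hCy0 : 0 < Cy := by rw [hCy]; positivity
  have hCg0 : 0 < Cg := by rw [hCg]; positivity
  have hCyw : Cw ≤ Cy := by
    rw [hCy]
    linarith only [hCw, hCz, hvCw]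
  obtain ⟨ε₁, X₁, hε₁, hX₁, hLD1⟩ := hLD' (εL / Cy) (by positivity)
  refine ⟨min (1 / 10) (ε₁ * Cy / 20), min (X₁ / Cy) ((g - wr - v₀) / Cg),
    lt_min (by norm_num) (by positivity), lt_min (by positivity) (by positivity), ?_⟩
  intro rc pe x L e G hx hxx hL he hex hZ N ul us hul hus
  have hx1 : Cy * x ≤ X₁ := by
    have : x ≤ X₁ / Cy := hxx.trans (min_le_left _ _)
    rw [le_div_iff₀ hCy0] at this
    linarith only [this]
  have hx3 : Cg * x ≤ g - wr - v₀ := by
    have : x ≤ (g - wr - v₀) / Cg := hxx.trans (min_le_right _ _)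
    rw [le_div_iff₀ hCg0] at this
    linarith only [this]
  have hex0 : 10 * e ≤ x := by
    have : min (1 / 10) (ε₁ * Cy / 20) * x ≤ 1 / 10 * x :=
      mul_le_mul_of_nonneg_right (min_le_left _ _) hx.le
    linarith only [hex, this]
  have hex1 : e ≤ x := by linarith only [he, hex0]
  have hex2 : 20 * e ≤ ε₁ * (Cy * x) := by
    have : min (1 / 10) (ε₁ * Cy / 20) * x ≤ ε₁ * Cy / 20 * x :=
      mul_le_mul_of_nonneg_right (min_le_right _ _) hx.le
    linarith only [hex, this]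
  exact by
   by_cases hle : ul ≤ us
   swap
   · refine Clp.of one_pos 1 fun J hJ F A _ => ?_
     intro w₀ Δ r V₀ H X Va Rt Pu PN sg a t s a' t' al nu kk bb zl zs _ hV
     exfalso
     have hJ0 : (0 : ℝ) < J := by exact_mod_cast hJ
     have h1 := hV.ul1
     have h2 := hV.us0
     have h3 : (w₀ : ℝ) ≤ ((w₀ + N * Δ : ℕ) : ℝ) := by exact_mod_cast Nat.le_add_right _ _
     have h4 : 0 < e * (J : ℝ) := mul_pos he hJ0
     have h5 : (ul : ℝ) * J < us * J := by linarith only [h1, h2, h3, h4]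
     have h6 : (ul : ℝ) < us := lt_of_mul_lt_mul_right h5 hJ0.le
     exact hle (by exact_mod_cast h6.le)
   have hle' : (ul : ℝ) ≤ us := by exact_mod_cast hle
   have hul' := hul
   have hus' := hus
   rw [abs_le] at hul' hus'
   have hCwx : Cw * x ≤ Cy * x := mul_le_mul_of_nonneg_right hCyw hx.le
   have hLD2 := hLD1 (Cy * x) (by positivity) hx1 us ul (hus.trans hCwx) (hul.trans hCwx) hle
   obtain ⟨J₁, hJ₁⟩ := exists_nat_gt (4 / x + 1)
   refine Clp.mono (J₂ := J₁) (hC.pos.and hLD2) ?_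
   rintro J hJ F A ⟨hPA, gL⟩ w₀ Δ r V₀ H X Va Rt Pu PN sg a t s a' t' al nu kk bb zl zs hsg hV hX
     hF hN
   have hJJ : (J₁ : ℝ) ≤ J := by exact_mod_cast hJ
   have q1 : 0 < 4 / x := by positivity
   have hJ0 : (0 : ℝ) < J := by linarith only [hJ₁, hJJ, q1]
   have hxJ0 : 0 < x * (J : ℝ) := by positivity
   have hxJ4' : 4 ≤ x * J := by
     have h1 : 4 / x ≤ J := by linarith only [hJ₁, hJJ]
     rw [div_le_iff₀ (by positivity)] at h1
     linarith only [h1]
   exact by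
    have hXle : (X : ℝ) ≤ x * J := by rw [hX]; exact Nat.floor_le hxJ0.le
    have hXge : x * J ≤ 2 * X := by
      have : x * J < X + 1 := by rw [hX]; exact Nat.lt_floor_add_one _
      linarith only [hxJ4', this]
    have hX1 : (1 : ℝ) ≤ X := by linarith only [hxJ4', hXge]
    -- levels
    have hpA : ∀ ω, 0 < Pool.Agent.H49.Ent.cond F.p A True ω → A ω := fun ω hω => ldm_mem hω
    have hp := isLaw_cond F.isLaw hPA
    have hL0 : 0 < L := by linarith only [he, hZ, hZ.eL, hZ.e0]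
    have hwN : ∀ i ≤ N, (w₀ : ℝ) ≤ ((w₀ + i * Δ : ℕ) : ℝ) ∧
        ((w₀ + i * Δ : ℕ) : ℝ) ≤ ((w₀ + N * Δ : ℕ) : ℝ) := by
      intro i hi
      have := Nat.mul_le_mul_right Δ hi
      exact ⟨by exact_mod_cast Nat.le_add_right _ _, by exact_mod_cast (by omega)⟩
    have hVN : ∀ i ≤ N, (V₀ : ℝ) ≤ ((V₀ + i * r : ℕ) : ℝ) ∧
        ((V₀ + i * r : ℕ) : ℝ) ≤ ((V₀ + N * r : ℕ) : ℝ) := by
      intro i hi
      have := Nat.mul_le_mul_right r hi
      exact ⟨by exact_mod_cast Nat.le_add_right _ _, by exact_mod_cast (by omega)⟩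
    have hzl := hV.zl
    have hzu := hV.zu
    have hul1 := hV.ul1
    have hus0 := hV.us0
    have heJ : 0 < e * (J : ℝ) := mul_pos he hJ0
    have hw0N := (hwN N le_rfl).1
    have hulw : |(ul : ℝ) - wr| ≤ L := by
      have h1 := hV.ul0
      have h2 : (ul : ℝ) * J ≤ (wr + L / 2) * J := by linarith only [hzu, hul1, heJ, hw0N]
      have h3 : (ul : ℝ) ≤ wr + L / 2 := le_of_mul_le_mul_right h2 hJ0
      rw [abs_le]
      constructor <;> linarith
    exact by
     have husw : |(us : ℝ) - wr| ≤ L := by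
       have h1 := hV.us1
       have h2 : (wr - L / 2) * J ≤ (us : ℝ) * J := by linarith only [hzl, hus0, heJ, hw0N]
       have h3 : wr - L / 2 ≤ (us : ℝ) := le_of_mul_le_mul_right h2 hJ0
       rw [abs_le]
       constructor <;> linarith
     obtain ⟨f1, f2, -⟩ := hZ.aff ul hulw
     obtain ⟨f4, f3, -⟩ := hZ.aff us husw
     have hvL : 0 < v * L := by positivity
     have hg11 : G < g - wr - v₀ := hZ.gH (by linarith only [hg0])
     -- the case `H = 0` does not occur
     have hsH : (H : ℝ) ≤ (g - wr - v₀) * J - 9 * e * J := by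
       rcases hV.hs with h0 | h0
       · rw [h0]
         have h1 : 9 * e ≤ g - wr - v₀ := by
           have := hZ.LG
           have := hZ.eL
           linarith
         have := mul_le_mul_of_nonneg_right h1 hJ0.le
         push_cast
         linarith only [this]
       · exact h0
     obtain ⟨dd, hdd⟩ : ∃ dd : ℝ, dd = (1 + v) * ((us : ℝ) - ul) + 2 * e := ⟨_, rfl⟩
     have numA : ∀ i ≤ N, ∀ q : ℕ, |(q : ℝ) - (P - g) * J| ≤ L / 2 * J → ∀ kk : ℕ, kk ≤ X →
         |((q : ℝ) + ((w₀ + i * Δ : ℕ) : ℝ)) / J - us - (P - g)| ≤ Cy * x := by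
       intro i hi q hq kk hkk
       have mi := hV.rt i hi
       have mi' := hV.rt' i hi
       have ci : ((V₀ + i * r + H : ℕ) : ℝ) = ((V₀ + i * r : ℕ) : ℝ) + H := by push_cast; ring
       rw [ci] at mi mi'
       have b3 : -(Cw * x) * (J : ℝ) ≤ w₀ - wr * J := by
         have h1 := mul_le_mul_of_nonneg_right hul'.1 hJ0.le
         linarith only [hul1, heJ, h1]
       exact (hrow_numA (J := J) (x := x) (Cw := Cw) (C := Cz) (L := L) (e := e) (g := g) (wr := wr)
         (v := v) (P := P) (us := us) (w₀ := w₀) (wi := ((w₀ + i * Δ : ℕ) : ℝ))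
         (Vi := ((V₀ + i * r : ℕ) : ℝ)) (H := H) (X := X) (VN := 0)
         (kk := kk) (q := q) (Y := Cy * x) hJ0 hx he.le hex1 hv.le hCw0.le hCz.le
         hL hus b3 (hwN i hi).1 (by linarith only [hus0, hwN, hi, (hwN i hi).2]) mi mi' (Nat.cast_nonneg _)
         (by exact_mod_cast hkk) hXle hq (by rw [hCy])).1
     exact by
      have numB : ∀ i ≤ N, ∀ q : ℕ, |(q : ℝ) - (P - g) * J| ≤ L / 2 * J → ∀ kk : ℕ, kk ≤ X →
          (((us : ℝ) + (((q : ℝ) + ((w₀ + i * Δ : ℕ) : ℝ)) / J - us)) * J ≤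
              q + ((w₀ + i * Δ : ℕ) : ℝ) ∧
            (q : ℝ) + (((V₀ + i * r : ℕ) : ℝ) + H) + ((w₀ + i * Δ : ℕ) : ℝ) + kk ≤
              ((σ 1).th us + (((q : ℝ) + ((w₀ + i * Δ : ℕ) : ℝ)) / J - us)) * J) ∧
          (|((q : ℝ) + ((V₀ + i * r : ℕ) : ℝ) + ((w₀ + i * Δ : ℕ) : ℝ) + kk) / J - ul -
              (σ 1).rot ul - (P - g)| ≤ Cy * x ∧
            (q : ℝ) + ((w₀ + i * Δ : ℕ) : ℝ) ≤ (ul + (((q : ℝ) + ((V₀ + i * r : ℕ) : ℝ) +
              ((w₀ + i * Δ : ℕ) : ℝ) + kk) / J - ul - (σ 1).rot ul)) * J ∧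
            ((ul : ℝ) + (σ 1).rot ul + (((q : ℝ) + ((V₀ + i * r : ℕ) : ℝ) +
              ((w₀ + i * Δ : ℕ) : ℝ) + kk) / J - ul - (σ 1).rot ul)) * J ≤
              q + ((V₀ + i * r : ℕ) : ℝ) + ((w₀ + i * Δ : ℕ) : ℝ) + kk ∧
            (q : ℝ) + (((V₀ + i * r : ℕ) : ℝ) + H) + ((w₀ + i * Δ : ℕ) : ℝ) + kk ≤
              ((σ 1).th ul + (((q : ℝ) + ((V₀ + i * r : ℕ) : ℝ) + ((w₀ + i * Δ : ℕ) : ℝ) + kk) / J -
                ul - (σ 1).rot ul)) * J ∧
            (q : ℝ) + ((V₀ + i * r : ℕ) : ℝ) + ((w₀ + i * Δ : ℕ) : ℝ) + kk + (dd + Cy * x) * J ≤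
              (q : ℝ) + (((V₀ + i * r : ℕ) : ℝ) + H) + ((w₀ + i * Δ : ℕ) : ℝ) + kk) := by
        intro i hi q hq kk hkk
        have mi := hV.vt i hi
        have mi' := hV.rt' i hi
        have mrs := hV.rs2
        have cN : ((V₀ + N * r + H + X : ℕ) : ℝ) = ((V₀ + N * r : ℕ) : ℝ) + H + X := by push_cast; ring
        have ci : ((V₀ + i * r + H : ℕ) : ℝ) = ((V₀ + i * r : ℕ) : ℝ) + H := by push_cast; ring
        rw [cN] at mrs
        rw [ci] at mi'
        exact hrow_numB (J := J) (x := x) (Cw := Cw) (C := Cz) (L := L) (e := e) (g := g) (wr := wr)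
          (v₀ := v₀) (v := v) (P := P) (ul := ul) (us := us) (rul := (σ 1).rot ul)
          (tul := (σ 1).th ul) (tus := (σ 1).th us) (w₀ := w₀) (wi := ((w₀ + i * Δ : ℕ) : ℝ))
          (V₀ := V₀) (Vi := ((V₀ + i * r : ℕ) : ℝ)) (VN := ((V₀ + N * r : ℕ) : ℝ)) (H := H) (X := X)
          (kk := kk) (q := q) (dd := dd) (Y := Cy * x) hJ0 hx he.le hex1 hv.le hCw0.le hCz.le
          hL hul hus hul1 (hwN i hi).1 (by linarith only [hus0, hwN, hi, (hwN i hi).2]) f1 f2 f3 (hVN i hi).1 (hVN i hi).2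
          hV.vl mi mi' hsH mrs (Nat.cast_nonneg _) (by exact_mod_cast hkk) hXle hq hdd
          (by rw [hCy]) (by rw [← hCy, ← hCg]; exact hx3)
      -- the entropy of the frame
      exact by
       obtain ⟨E, hE1, hElog, hcl1, hcl2⟩ := hN.cl
       have hElog' : Real.log E ≤ (10 * e + 10 * e) * J := hElog
       obtain ⟨Fc, hFc⟩ : ∃ Fc, Fc = CH (Pool.Agent.H49.Ent.cond F.p A True)
           (fun ω => (a' ω, s ω, t' ω)) (fun ω => (zl ω, F.W ω)) := ⟨_, rfl⟩
       have hfr : Fc ≤ B₁ * X := by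
         rw [hFc, hB₁]
         exact rowf_fr hp hpA hJ0 hx he.le hex1 hv.le le_rfl hv hCw0.le hL0 hZ.LG hZ.eL hZ.g9 hZ.g10
           hg11 hV.ul0 hle' hul' hus' hex0 hXge hX1 hE1 hElog' f1 f2 hN.vb hN.rb hF.ga' hF.gt' hN.sl
           hcl1
       have h48 : (4 : ℝ) + 1 / 2 ^ (H + X) ≤ 8 := by
         have h1 : (1 : ℝ) / 2 ^ (H + X) ≤ 1 := div_le_self zero_le_one (one_le_pow₀ (by norm_num))
         linarith only [h1]
       obtain ⟨X', hX'⟩ : ∃ X' : ℕ, X' = ⌈dd * J⌉₊ + 2 := ⟨_, rfl⟩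
       have hdd0 : 0 ≤ dd := by
         rw [hdd]
         have : 0 ≤ (1 + v) * ((us : ℝ) - ul) := mul_nonneg (by linarith only [hv]) (by linarith only [hle'])
         linarith only [he, this]
       have hX'1 : dd * J + 2 ≤ X' := by
         rw [hX']
         push_cast
         linarith only [Nat.le_ceil (dd * (J : ℝ))]
       have hX'2 : (X' : ℝ) ≤ (4 * (1 + v) * Cw + 7) * X := by
         have h1 : ((⌈dd * (J : ℝ)⌉₊ : ℕ) : ℝ) < dd * J + 1 :=
           Nat.ceil_lt_add_one (mul_nonneg hdd0 hJ0.le)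
         have h2 : dd * J ≤ (1 + v) * (2 * (Cw * (x * J))) + 2 * (x * J) := by
           rw [hdd]
           have h3 : (1 + v) * (((us : ℝ) - ul) * J) ≤ (1 + v) * (2 * (Cw * (x * J))) := by
             refine mul_le_mul_of_nonneg_left ?_ (by linarith only [hv])
             have h4 : (us : ℝ) - ul ≤ 2 * (Cw * x) := by linarith only [hul', hus']
             have := mul_le_mul_of_nonneg_right h4 hJ0.le
             linarith only [this]
           have h5 : e * (J : ℝ) ≤ x * J := mul_le_mul_of_nonneg_right hex1 hJ0.le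
           linarith only [h3, h5]
         have h6 : ((1 + v) * (2 * Cw) + 2) * (x * J) ≤ ((1 + v) * (2 * Cw) + 2) * (2 * X) :=
           mul_le_mul_of_nonneg_left hXge (by positivity)
         rw [hX']
         push_cast
         linarith only [hxJ4', hXge, h1, h2, h6]
       exact by
        refine ⟨X', by omega, hX'2, ?_⟩
        intro k i hi j hj qb n hq1 hq2
        have hqm : ∀ m < n, |((qb + m * X' : ℕ) : ℝ) - (P - g) * J| ≤ L / 2 * J := by
          intro m hm
          rw [abs_le] at hq1 hq2 ⊢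
          have h1 : (qb : ℝ) ≤ ((qb + m * X' : ℕ) : ℝ) := by exact_mod_cast Nat.le_add_right _ _
          have h2 : ((qb + m * X' : ℕ) : ℝ) ≤ ((qb + n * X' : ℕ) : ℝ) := by
            have := Nat.mul_le_mul_right X' hm.le
            exact_mod_cast (by omega)
          constructor <;> linarith [hq1.1, hq2.2]
        obtain ⟨ls, hls0, hlsS, hlsv⟩ := gL sg hF.bij hsg zs zl
          (hN.ns.mono (Nat.floor_mono (mul_le_mul_of_nonneg_right (by linarith only [he, hex2]) hJ0.le))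
            (Nat.floor_mono (mul_le_mul_of_nonneg_right (by linarith only [he, hex2]) hJ0.le)))
          (hN.nl.mono (Nat.floor_mono (mul_le_mul_of_nonneg_right (by linarith only [he, hex2]) hJ0.le))
            (Nat.floor_mono (mul_le_mul_of_nonneg_right (by linarith only [he, hex2]) hJ0.le)))
          a' s t' E hN.fz (fun ω hω => by
            obtain ⟨b1, b2, b3⟩ := hF.bd ω hω
            exact ⟨b1.trans (by norm_num), b2.trans (by norm_num), b3.trans h48⟩) hE1
          (by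
            have h1 : (10 * e + 10 * e) * (J : ℝ) ≤ ε₁ * (Cy * x) * J :=
              mul_le_mul_of_nonneg_right (by linarith only [hex2]) hJ0.le
            linarith only [hElog, h1]) hcl2 hcl1 n 1 dd
          (fun m => qb + m * X' + fw w₀ Δ i)
          (fun m => qb + m * X' + fv V₀ r i + fw w₀ Δ i + (j + 1) * k)
          (fun m => qb + m * X' + (fv V₀ r i + H) + fw w₀ Δ i + (j + 1) * k)
          (fun m => (((qb + m * X' : ℕ) : ℝ) + ((w₀ + i * Δ : ℕ) : ℝ)) / J - us)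
          (fun m => (((qb + m * X' : ℕ) : ℝ) + ((V₀ + i * r : ℕ) : ℝ) +
            ((w₀ + i * Δ : ℕ) : ℝ) + (((j + 1) * k : ℕ) : ℝ)) / J - ul - (σ 1).rot ul)
          (by
            rw [hdd]
            have : 0 ≤ v * ((us : ℝ) - ul) := mul_nonneg hv.le (by linarith only [hle'])
            linarith only [he, this])
          (by
            rw [hdd]
            rw [abs_le] at f1 f4
            linarith only [f1, f4])
          (fun m hm => by
            have n1 := numA i hi (qb + m * X') (hqm m hm) ((j + 1) * k) hj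
            obtain ⟨⟨n2, n3⟩, -⟩ := numB i hi (qb + m * X') (hqm m hm) ((j + 1) * k) hj
            refine ⟨n1, n2.trans (le_of_eq ?_), le_trans (le_of_eq ?_) n3⟩
            · unfold fw
              push_cast
              ring
            · unfold fw fv
              push_cast
              ring)
          (fun m hm => by
            obtain ⟨-, ⟨n1, n2, n3, n4, n5⟩⟩ :=
              numB i hi (qb + m * X') (hqm m hm) ((j + 1) * k) hj
            refine ⟨n1, le_trans (le_of_eq ?_) n2, n3.trans (le_of_eq ?_),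
              le_trans (le_of_eq ?_) n4, le_trans (le_of_eq ?_) (n5.trans (le_of_eq ?_))⟩
            · unfold fw
              push_cast
              ring
            · unfold fw fv
              push_cast
              ring
            · unfold fw fv
              push_cast
              ring
            · unfold fw fv
              push_cast
              ring
            · unfold fw fv
              push_cast
              ring)
          (fun m hm => by
            constructor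
            · have e1 : (((((qb + (m + 1) * X' : ℕ) : ℝ) + ((V₀ + i * r : ℕ) : ℝ) +
                  ((w₀ + i * Δ : ℕ) : ℝ) + (((j + 1) * k : ℕ) : ℝ)) / J - ul - (σ 1).rot ul)) * J =
                  ((((qb + m * X' : ℕ) : ℝ) + ((V₀ + i * r : ℕ) : ℝ) +
                  ((w₀ + i * Δ : ℕ) : ℝ) + (((j + 1) * k : ℕ) : ℝ)) / J - ul - (σ 1).rot ul) * J +
                  X' := by
                push_cast
                field_simp
                ring
              show (((((qb + m * X' : ℕ) : ℝ) + ((V₀ + i * r : ℕ) : ℝ) +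
                  ((w₀ + i * Δ : ℕ) : ℝ) + (((j + 1) * k : ℕ) : ℝ)) / J - ul - (σ 1).rot ul) + dd) *
                  J + 2 ≤
                  (((((qb + (m + 1) * X' : ℕ) : ℝ) + ((V₀ + i * r : ℕ) : ℝ) +
                  ((w₀ + i * Δ : ℕ) : ℝ) + (((j + 1) * k : ℕ) : ℝ)) / J - ul - (σ 1).rot ul)) * J
              rw [e1, add_mul]
              linarith only [hX'1]
            · show qb + m * X' + (fv V₀ r i + H) + fw w₀ Δ i + (j + 1) * k ≤
                qb + (m + 1) * X' + (fv V₀ r i + H) + fw w₀ Δ i + (j + 1) * k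
              have := Nat.mul_le_mul_right X' (Nat.le_succ m)
              have e2 : (m + 1) * X' = m.succ * X' := rfl
              omega)
        exact by
         rw [Nat.cast_one, one_mul, ← hFc] at hlsS
         rw [← hB₁]
         refine le_trans (Finset.sum_le_sum fun m hm => ?_) (hlsS.trans hfr)
         have h1 := hlsv m (Finset.mem_range.1 hm)
         refine max_le (hls0 m) ?_
         have e3 : εL / Cy * (Cy * x) * J = εL * x * J := by
           field_simp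
         rw [e3] at h1
         linarith only [h1]

end cls

end Pool.HPR
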