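import Pool.Agent.H50.S6H.RowD
import Pool.Agent.H86.S6C.Trv

/-!
# The pairs of rows (`HRowStmt`)
-/

set_option autoImplicit false

namespace Pool.HPR

open Finset Real
open Pool.Agent.H49.Ent Pool.Agent.H32.Dense Pool.STK Pool.KA Pool.KSAT Pool.K2S Pool.PB Pool.KS6
  Pool.Sel51 Pool.KA.Vd Pool.S6C Pool.FALL

section cls

variable {S : PCl 3} {a₁ R h₁ : ℝ} {i₀ : Fin 3} {c s₂ : ℝ} {r₁ : ℝ → ℝ} {D : Set ℝ} {σ : ℝ → Row}
  {act : ℚ → ℝ} {K : Set ℝ} {W : ℝ → ℝ} {v₁ t₁ : ℚ} {e₁ Q₀ P g v₀ v a₀ α : ℝ}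

/-- The normal forms have no more digits than the directions. -/
theorem hrow_nul (hNAT : NATStmt) (hC : Cs S a₁ R h₁ i₀ c s₂ r₁ D σ)
    (hLoc : Loc S i₀ c s₂ r₁ D σ act K W v₁ t₁ e₁ Q₀ P g v₀ v v a₀ α) (hv : 0 < v)
    (hg0 : g - W g = v₀) {Cw Cz εL : ℝ} (hCw : 1 ≤ Cw) (hCz : 0 < Cz) (hεL : 0 < εL) :
    ∃ ε₀ x₁ : ℝ, 0 < ε₀ ∧ 0 < x₁ ∧
    ∀ (rc : ℚ → ℝ) (pe x L e G : ℝ), 0 < x → x ≤ x₁ → L ≤ Cz * x → 0 < e → e ≤ ε₀ * x →
    Zoh σ act rc v₁ t₁ e₁ pe P g (W g) v₀ v a₀ α L e G → ∀ (N : ℕ) (ul us : ℚ),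
    |(ul : ℝ) - W g| ≤ Cw * x → |(us : ℝ) - W g| ≤ Cw * x →
    Clp S (fun J F A => ∀ (w₀ Δ r V₀ H X Va Rt Pu PN : ℕ) (sg : Fin 3 → Fin 3)
      (a t : ℕ → F.Ω → ℝ) (s a' t' al nu kk bb : F.Ω → ℝ) (zl zs : F.Ω → Pln), sg 0 = i₀ →
      HLv J N g (W g) v₀ v L e ul us w₀ Δ r V₀ H X → X = ⌊x * J⌋₊ →
      Pool.S6HF.HFr F A sg N w₀ Δ r V₀ H X Va Rt Pu PN a t s a' t' al nu kk bb →
      FNr F A sg σ g (W g) v₀ v v e (10 * e) ul us Va Rt s a' t' zl zs →
      ∃ X' : ℕ, 0 < X' ∧ (X' : ℝ) ≤ (4 * (1 + v) * Cw + 7) * X ∧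
      ∀ k : ℕ, ∀ i ≤ N, ∀ j, (j + 1) * k ≤ X → ∀ qb n : ℕ, |(qb : ℝ) - (P - g) * J| ≤ L / 2 * J →
      |((qb + n * X' : ℕ) : ℝ) - (P - g) * J| ≤ L / 2 * J →
      ∑ m ∈ range n, max 0 (F.vdf (Pool.Agent.H49.Ent.cond F.p A True) sg
        (qb + m * X' + fw w₀ Δ i) (qb + m * X' + fv V₀ r i + fw w₀ Δ i + (j + 1) * k)
        (qb + m * X' + (fv V₀ r i + H) + fw w₀ Δ i + (j + 1) * k) a' s t' F.W - εL * x * J) ≤
        (2 * (2 * (v + v) * Cw + 28) + 6) * X) := by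
  obtain ⟨Cy, hCy⟩ : ∃ Cy : ℝ, Cy = Cz + 2 * (1 + v) * Cw + 2 := ⟨_, rfl⟩
  have hCw0 : 0 < Cw := by linarith only [hCw]
  have hvCw : 0 ≤ v * Cw := by positivity
  have hCy0 : 0 < Cy := by rw [hCy]; positivity
  have hCyw : Cw ≤ Cy := by
    rw [hCy]
    linarith only [hCw, hCz, hvCw]
  have hW0 := hLoc.w0
  have hR := hC.row 1 one_pos le_rfl hC.D1
  obtain ⟨ε₁, X₁, hε₁, hX₁, hZ1⟩ := hrow_zero hNAT hC hLoc (ε := εL / Cy) (by positivity)
  generalize W g = wr at hZ1 hg0 hW0 ⊢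
  refine ⟨min (1 / 10) (ε₁ * Cy / 20), X₁ / Cy, lt_min (by norm_num) (by positivity),
    by positivity, ?_⟩
  intro rc pe x L e G hx hxx hL he hex hZ N ul us hul hus
  have hx1 : Cy * x ≤ X₁ := by
    rw [le_div_iff₀ hCy0] at hxx
    linarith only [hxx]
  have hex0 : 10 * e ≤ x := by
    have : min (1 / 10) (ε₁ * Cy / 20) * x ≤ 1 / 10 * x :=
      mul_le_mul_of_nonneg_right (min_le_left _ _) hx.le
    linarith only [hex, this]
  have hex1 : e ≤ x := by linarith only [he, hex0]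
  have hex2 : 20 * e ≤ ε₁ * (Cy * x) := by
    have : min (1 / 10) (ε₁ * Cy / 20) * x ≤ ε₁ * Cy / 20 * x :=
      mul_le_mul_of_nonneg_right (min_le_right _ _) hx.le
    linarith only [hex, this]
  have hL0 : 0 < L := by linarith only [he, hZ, hZ.eL, hZ.e0]
  have hvL : 0 < v * L := by positivity
  have zLG := hZ.LG
  have zeL := hZ.eL
  exact by
   have z8 := hZ.g8
   have z7 := hZ.g7
   have z9 := hZ.g9
   have z10 := hZ.g10
   have hG0 : 0 < G := by linarith only [he, hvL, zLG, zeL]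
   -- the position of the right window
   by_cases hpos : |(us : ℝ) - wr| ≤ L ∧ (us : ℝ) - wr ≤ L / 2 ∧ ul ≤ us ∧ wr - L / 2 ≤ ul
   swap
   · refine Clp.of one_pos 1 fun J hJ F A _ => ?_
     intro w₀ Δ r V₀ H X Va Rt Pu PN sg a t s a' t' al nu kk bb zl zs _ hV
     exfalso
     have hJ0 : (0 : ℝ) < J := by exact_mod_cast hJ
     have h1 := hV.ul1
     have h2 := hV.us0
     have h3 : (w₀ : ℝ) ≤ ((w₀ + N * Δ : ℕ) : ℝ) := by exact_mod_cast Nat.le_add_right _ _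
     have h4 : 0 < e * (J : ℝ) := mul_pos he hJ0
     have h5 : (ul : ℝ) * J < us * J := by linarith only [h1, h2, h3, h4]
     have h6 : (ul : ℝ) < us := lt_of_mul_lt_mul_right h5 hJ0.le
     have h7 := hV.us1
     have h8 := hV.ul0
     refine hpos ⟨?_, by linarith only [h7], by exact_mod_cast h6.le, h8⟩
     rw [abs_le]
     constructor <;> linarith
   obtain ⟨husw, husL, hle, hul0⟩ := hpos
   obtain ⟨f4, f3, -⟩ := hZ.aff us husw
   have hus' := husw
   rw [abs_le] at hus' f4 f3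
   have hvus : v * ((us : ℝ) - wr) ≤ v * (L / 2) := mul_le_mul_of_nonneg_left husL hv.le
   have hvus' : v * (-L) ≤ v * ((us : ℝ) - wr) := mul_le_mul_of_nonneg_left (by linarith only [hus']) hv.le
   have hus0 : 0 ≤ (us : ℝ) := by linarith only [he, hvL, zLG, zeL, z9, hus']
   exact by
    have hth1 : (σ 1).th us < 1 := by linarith only [he, hvL, zLG, zeL, z8, z7, husL, f3, hvus]
    have hrot : 0 ≤ (σ 1).rot us := by linarith only [he, hvL, zLG, zeL, z10, f4, hvus']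
    have hus1 : (us : ℝ) ≤ 1 := by linarith only [hg0, he, hvL, zLG, zeL, z8, z7, z10, husL]
    have htrv : (us : ℝ) + (σ 1).rot us ≤ (σ 1).th us := by
      have h1 := trv hC le_rfl hR us (by exact_mod_cast hus0) hus1
      rcases min_le_iff.1 h1 with h | h
      · exact h
      · linarith only [he, hvL, zLG, zeL, z8, z7, husL, f3, hvus, h]
    have hCwx : Cw * x ≤ Cy * x := mul_le_mul_of_nonneg_right hCyw hx.le
    have hZ2 := hZ1 (Cy * x) (by positivity) hx1 us (hus.trans hCwx) hrot htrv hus0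
    obtain ⟨J₁, hJ₁⟩ := exists_nat_gt (4 / x + 1)
    refine Clp.mono (J₂ := J₁) (hC.pos.and hZ2) ?_
    rintro J hJ F A ⟨hPA, gL⟩ w₀ Δ r V₀ H X Va Rt Pu PN sg a t s a' t' al nu kk bb zl zs hsg hV hX
      hF hN
    have hJJ : (J₁ : ℝ) ≤ J := by exact_mod_cast hJ
    have q1 : 0 < 4 / x := by positivity
    have hJ0 : (0 : ℝ) < J := by linarith only [hg0, he, hvL, zLG, zeL, z8, z7, z9, z10, hJ₁, hJJ, q1]
    have hxJ0 : 0 < x * (J : ℝ) := by positivity
    have hxJ4' : 4 ≤ x * J := by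
      have h1 : 4 / x ≤ J := by linarith only [hg0, he, hvL, zLG, zeL, z8, z7, z9, z10, hJ₁, hJJ]
      rw [div_le_iff₀ (by positivity)] at h1
      linarith only [h1]
    have hXle : (X : ℝ) ≤ x * J := by rw [hX]; exact Nat.floor_le hxJ0.le
    have hXge : x * J ≤ 2 * X := by
      have : x * J < X + 1 := by rw [hX]; exact Nat.lt_floor_add_one _
      linarith only [hg0, he, hvL, zLG, zeL, z8, z7, z9, z10, hxJ4', this]
    have hX1 : (1 : ℝ) ≤ X := by linarith only [hg0, he, hvL, zLG, zeL, z8, z7, z9, z10, hxJ4', hXge]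
    have hwN : ∀ i ≤ N, (w₀ : ℝ) ≤ ((w₀ + i * Δ : ℕ) : ℝ) ∧
        ((w₀ + i * Δ : ℕ) : ℝ) ≤ ((w₀ + N * Δ : ℕ) : ℝ) := by
      intro i hi
      have := Nat.mul_le_mul_right Δ hi
      exact ⟨by exact_mod_cast Nat.le_add_right _ _, by exact_mod_cast (by omega)⟩
    exact by
     have hzl := hV.zl
     have hzu := hV.zu
     have hul1 := hV.ul1
     have hus0' := hV.us0
     have heJ : 0 < e * (J : ℝ) := mul_pos he hJ0
     have hH : H = 0 := hV.h0 hg0
     obtain ⟨E, hE1, hElog, hcl1, hcl2⟩ := hN.cl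
     have hElog' : Real.log E ≤ (10 * e + 10 * e) * J := hElog
     have h48 : (4 : ℝ) + 1 / 2 ^ (H + X) ≤ 8 := by
       have h1 : (1 : ℝ) / 2 ^ (H + X) ≤ 1 := div_le_self zero_le_one (one_le_pow₀ (by norm_num))
       linarith only [h1]
     have hle' : (ul : ℝ) ≤ us := by exact_mod_cast hle
     have hslm : SL F A ⌊(us : ℝ) * J⌋₊ zl := by
       refine hN.nl.sl.mono (Nat.floor_le_floor (mul_le_mul_of_nonneg_right hle' hJ0.le)) ?_
       refine Nat.floor_le_of_le ?_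
       have := mul_le_mul_of_nonneg_right hus1 hJ0.le
       linarith only [this]
     have hul' := hul
     rw [abs_le] at hul'
     have hX'2 : ((1 : ℕ) : ℝ) ≤ (4 * (1 + v) * Cw + 7) * X := by
       have h1 : (1 : ℝ) * 1 ≤ (4 * (1 + v) * Cw + 7) * X :=
         mul_le_mul (by nlinarith only [hCw, hvCw, hg0, he, hvL, zLG, zeL, z8, z7, z9, z10]) hX1 zero_le_one (by positivity)
       push_cast
       linarith only [h1]
     refine ⟨1, one_pos, hX'2, ?_⟩
     intro k i hi j hj qb n hq1 hq2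
     have hqm : ∀ m < n, |((qb + m * 1 : ℕ) : ℝ) - (P - g) * J| ≤ L / 2 * J := by
       intro m hm
       rw [abs_le] at hq1 hq2 ⊢
       have h1 : (qb : ℝ) ≤ ((qb + m * 1 : ℕ) : ℝ) := by exact_mod_cast Nat.le_add_right _ _
       have h2 : ((qb + m * 1 : ℕ) : ℝ) ≤ ((qb + n * 1 : ℕ) : ℝ) := by
         have := Nat.mul_le_mul_right 1 hm.le
         exact_mod_cast (by omega)
       constructor <;> linarith [hq1.1, hq2.2]
     exact by
      have hz : ∑ m ∈ range n, max 0 (F.vdf (Pool.Agent.H49.Ent.cond F.p A True) sg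
            (qb + m * 1 + fw w₀ Δ i) (qb + m * 1 + fv V₀ r i + fw w₀ Δ i + (j + 1) * k)
            (qb + m * 1 + (fv V₀ r i + H) + fw w₀ Δ i + (j + 1) * k) a' s t' F.W - εL * x * J) ≤ 0 := by
        refine Finset.sum_nonpos fun m hm => ?_
        have hq := hqm m (Finset.mem_range.1 hm)
        have mi := hV.rt i hi
        have mi' := hV.rt' i hi
        have ci : ((V₀ + i * r + H : ℕ) : ℝ) = ((V₀ + i * r : ℕ) : ℝ) + H := by push_cast; ring
        rw [ci] at mi mi'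
        have b3 : -(Cw * x) * (J : ℝ) ≤ w₀ - wr * J := by
          have h1 := mul_le_mul_of_nonneg_right hul'.1 hJ0.le
          linarith only [hul1, heJ, h1]
        have nA := (hrow_numA (J := J) (x := x) (Cw := Cw) (C := Cz) (L := L) (e := e) (g := g)
          (wr := wr) (v := v) (P := P) (us := us) (w₀ := w₀) (wi := ((w₀ + i * Δ : ℕ) : ℝ))
          (Vi := ((V₀ + i * r : ℕ) : ℝ)) (H := H) (X := X) (VN := 0)
          (kk := (((j + 1) * k : ℕ) : ℝ)) (q := ((qb + m * 1 : ℕ) : ℝ)) (Y := Cy * x) hJ0 hx he.le hex1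
          hv.le hCw0.le hCz.le hL hus b3 (hwN i hi).1 (by linarith only [hus0', hwN, hi, (hwN i hi).2]) mi mi'
          (Nat.cast_nonneg _) (by exact_mod_cast hj) hXle hq (by rw [hCy])).1
        have hV1 := hV.rs1
        have hmr := Nat.mul_le_mul_right r hi
        have hVi : ((fv V₀ r i + (j + 1) * k : ℕ) : ℝ) ≤ (σ 1).rot us * J := by
          have h1 : ((fv V₀ r i + (j + 1) * k : ℕ) : ℝ) ≤ ((V₀ + N * r + X : ℕ) : ℝ) := by
            unfold fv
            exact_mod_cast (by omega)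
          have h2 := mul_le_mul_of_nonneg_right f4.1 hJ0.le
          linarith only [heJ, hV1, h1, h2]
        have key := gL sg hF.bij hsg zs
          (hN.ns.mono (Nat.floor_mono (mul_le_mul_of_nonneg_right (by linarith only [he, hex2]) hJ0.le))
            (Nat.floor_mono (mul_le_mul_of_nonneg_right (by linarith only [he, hex2]) hJ0.le))) Pln zl hslm a' s t' E
          (fun ω ω' hω hω' h1 h2 => hN.fz ω ω' hω hω' h2 h1) (fun ω hω => by
            obtain ⟨b1, b2, b3⟩ := hF.bd ω hω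
            exact ⟨b1.trans (by norm_num), b2.trans (by norm_num), b3.trans h48⟩) hE1
          (by
            have h1 : (10 * e + 10 * e) * (J : ℝ) ≤ ε₁ * (Cy * x) * J :=
              mul_le_mul_of_nonneg_right (by linarith only [hex2]) hJ0.le
            linarith only [hElog, h1]) hcl2 (qb + m * 1 + fw w₀ Δ i)
          (qb + m * 1 + fv V₀ r i + fw w₀ Δ i + (j + 1) * k)
          (by
            refine le_trans (le_of_eq ?_) nA
            unfold fw
            push_cast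
            ring_nf) (by omega)
          (by
            push_cast at hVi ⊢
            linarith only [hVi])
        have e1 : qb + m * 1 + (fv V₀ r i + H) + fw w₀ Δ i + (j + 1) * k =
            qb + m * 1 + fv V₀ r i + fw w₀ Δ i + (j + 1) * k := by
          rw [hH]
          ring
        rw [e1]
        have e3 : εL / Cy * (Cy * x) * J = εL * x * J := by
          field_simp
        rw [e3] at key
        exact max_le le_rfl (by linarith only [key])
      exact by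
       refine hz.trans ?_
       positivity

/-- **(D)** The pairs of rows. -/
theorem hrow_of (hNAT : NATStmt) : HRowStmt := by
  intro S a₁ R h₁ i₀ c s₂ r₁ D σ hC act K W v₁ t₁ e₁ Q₀ P g v₀ v a₀ α hLoc hv N Cw κ ϖ δ
    hCw hκ hκ1 hϖ hδ
  have hrate := hLoc.rate
  obtain ⟨jm, hjm⟩ : ∃ jm : ℕ, jm = ⌈2 / κ⌉₊ := ⟨_, rfl⟩
  obtain ⟨B₁, hB₁⟩ : ∃ B₁ : ℝ, B₁ = 2 * (2 * (v + v) * Cw + 28) + 6 := ⟨_, rfl⟩
  have hB₁0 : 0 < B₁ := by rw [hB₁]; positivity
  obtain ⟨C₁, hC₁⟩ : ∃ C₁ : ℝ, C₁ = (N + 1) * (jm * (B₁ / ϖ)) + (4 * (1 + v) * Cw + 7) := ⟨_, rfl⟩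
  have hC₁0 : 0 < C₁ := by rw [hC₁]; positivity
  refine ⟨C₁, hC₁0, fun Cz hCz => ?_⟩
  by_cases hP : 0 < P ∧ P < 1 ∧ v₀ ≤ g - W g
  swap
  · refine ⟨1, 1, one_pos, one_pos, fun rc pe x L e G hx _ _ he _ hZ => ?_⟩
    exfalso
    refine hP ?_
    have z0 : 0 < L := by linarith only [he, hZ, hZ.eL, hZ.e0]
    have z1 : 0 < G := lt_of_lt_of_le (by positivity) hZ.LG
    have z2 := hZ.g7
    have z3 := hZ.g8
    have z4 := hZ.g9
    have z5 := hZ.g10
    have z6 := hZ.g11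
    exact ⟨by linarith only [z1, z3, z4, z5, z6], by linarith only [z1, z2], by linarith only [z6]⟩
  obtain ⟨hP0, hP1, hg0⟩ := hP
  obtain ⟨Cr, hCr⟩ : ∃ Cr : ℝ, Cr = Cz + (1 + v) * Cw + 51 := ⟨_, rfl⟩
  have hCw0 : 0 < Cw := by linarith only [hCw, hP0, hP1]
  have hCr0 : 0 < Cr := by rw [hCr]; positivity
  obtain ⟨εR, hεR⟩ : ∃ εR : ℝ, εR = δ / (8 * Cr) := ⟨_, rfl⟩
  have hεR0 : 0 < εR := by rw [hεR]; positivity
  obtain ⟨X₂, hX₂, hR1⟩ := rte hC hP0 hP1 hrate hϖ hεR0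
  have hVV : ∃ ε₀ x₁ : ℝ, 0 < ε₀ ∧ 0 < x₁ ∧
    ∀ (rc : ℚ → ℝ) (pe x L e G : ℝ), 0 < x → x ≤ x₁ → L ≤ Cz * x → 0 < e → e ≤ ε₀ * x →
    Zoh σ act rc v₁ t₁ e₁ pe P g (W g) v₀ v a₀ α L e G → ∀ (N : ℕ) (ul us : ℚ),
    |(ul : ℝ) - W g| ≤ Cw * x → |(us : ℝ) - W g| ≤ Cw * x →
    Clp S (fun J F A => ∀ (w₀ Δ r V₀ H X Va Rt Pu PN : ℕ) (sg : Fin 3 → Fin 3)
      (a t : ℕ → F.Ω → ℝ) (s a' t' al nu kk bb : F.Ω → ℝ) (zl zs : F.Ω → Pln), sg 0 = i₀ →
      HLv J N g (W g) v₀ v L e ul us w₀ Δ r V₀ H X → X = ⌊x * J⌋₊ →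
      Pool.S6HF.HFr F A sg N w₀ Δ r V₀ H X Va Rt Pu PN a t s a' t' al nu kk bb →
      FNr F A sg σ g (W g) v₀ v v e (10 * e) ul us Va Rt s a' t' zl zs →
      ∃ X' : ℕ, 0 < X' ∧ (X' : ℝ) ≤ (4 * (1 + v) * Cw + 7) * X ∧
      ∀ k : ℕ, ∀ i ≤ N, ∀ j, (j + 1) * k ≤ X → ∀ qb n : ℕ, |(qb : ℝ) - (P - g) * J| ≤ L / 2 * J →
      |((qb + n * X' : ℕ) : ℝ) - (P - g) * J| ≤ L / 2 * J →
      ∑ m ∈ range n, max 0 (F.vdf (Pool.Agent.H49.Ent.cond F.p A True) sg
        (qb + m * X' + fw w₀ Δ i) (qb + m * X' + fv V₀ r i + fw w₀ Δ i + (j + 1) * k)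
        (qb + m * X' + (fv V₀ r i + H) + fw w₀ Δ i + (j + 1) * k) a' s t' F.W -
          δ * ϖ / 8 * x * J) ≤ (2 * (2 * (v + v) * Cw + 28) + 6) * X) := by
    rcases hg0.lt_or_eq with h | h
    · exact hrow_pos (ldTwo_of hNAT) hC hLoc hv (by linarith only [h]) hCw hCz (by positivity)
    · exact hrow_nul hNAT hC hLoc hv h.symm hCw hCz (by positivity)
  exact by
   obtain ⟨ε₀, x₁, hε₀, hx₁, hVV1⟩ := hVV
   refine ⟨min 1 ε₀, min x₁ (X₂ / Cr), lt_min one_pos hε₀, lt_min hx₁ (by positivity), ?_⟩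
   intro rc pe x L e G hx hxx hL he hex hZ ul us hul hus
   have hx2 : Cr * x ≤ X₂ := by
     have : x ≤ X₂ / Cr := hxx.trans (min_le_right _ _)
     rw [le_div_iff₀ hCr0] at this
     linarith only [this]
   have hex1 : e ≤ x := by
     have : min 1 ε₀ * x ≤ 1 * x := mul_le_mul_of_nonneg_right (min_le_left _ _) hx.le
     linarith only [hex, this]
   have hex2 : e ≤ ε₀ * x := by
     have : min 1 ε₀ * x ≤ ε₀ * x := mul_le_mul_of_nonneg_right (min_le_right _ _) hx.le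
     linarith only [hex, this]
   have hVV2 := hVV1 rc pe x L e G hx (hxx.trans (min_le_left _ _)) hL he hex2 hZ N ul us hul hus
   have hR2 := hR1 (Cr * x) (by positivity) hx2
   obtain ⟨KK, hKK⟩ : ∃ KK : ℝ, KK = (K2 8 + Real.log 2) / ϖ + (K1 8 + K2 8) := ⟨_, rfl⟩
   have hl2 : 0 < Real.log 2 := Real.log_pos (by norm_num)
   have hKK0 : 0 ≤ KK := by
     rw [hKK]
     have k1 := K1_nonneg (B := 8) (by norm_num)
     have k2 := K2_nonneg (B := 8) (by norm_num)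
     positivity
   obtain ⟨J₁, hJ₁⟩ := exists_nat_gt (4 / (κ * x) + 8 * KK / (δ * x) + 1)
   refine Clp.mono (J₂ := J₁) (hC.pos.and (hVV2.and hR2)) ?_
   rintro J hJ F A ⟨hPA, gV, gR⟩ w₀ Δ r V₀ H X Va Rt sg a t s a' t' al nu kk bb zl zs hsg hV hX hΔ
     hr hF hN
   have hJJ : (J₁ : ℝ) ≤ J := by exact_mod_cast hJ
   have q1 : 0 < 4 / (κ * x) := by positivity
   have q2 : 0 ≤ 8 * KK / (δ * x) := by positivity
   have hJ0 : (0 : ℝ) < J := by linarith only [hP0, hP1, hJ₁, hJJ, q1, q2]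
   exact by
    have hxJ4 : 4 ≤ κ * (x * J) := by
      have h1 : 4 / (κ * x) ≤ J := by linarith only [hP0, hP1, hJ₁, hJJ, q2]
      rw [div_le_iff₀ (by positivity)] at h1
      linarith only [h1]
    have hxJ0 : 0 < x * (J : ℝ) := by positivity
    have hxJ4' : 4 ≤ x * J := by
      have : κ * (x * J) ≤ 1 * (x * J) := mul_le_mul_of_nonneg_right hκ1 hxJ0.le
      linarith only [hxJ4, this]
    have hKX : 8 * KK ≤ δ * (x * J) := by
      have h1 : 8 * KK / (δ * x) ≤ J := by linarith only [hP0, hP1, hJ₁, hJJ, q1]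
      rw [div_le_iff₀ (by positivity)] at h1
      linarith only [h1]
    have hXle : (X : ℝ) ≤ x * J := by rw [hX]; exact Nat.floor_le hxJ0.le
    have hXge : x * J ≤ 2 * X := by
      have : x * J < X + 1 := by rw [hX]; exact Nat.lt_floor_add_one _
      linarith only [hP0, hP1, hxJ4', this]
    have hX1 : (1 : ℝ) ≤ X := by linarith only [hP0, hP1, hxJ4', hXge]
    obtain ⟨k, hk⟩ : ∃ k : ℕ, k = ⌊κ * X⌋₊ := ⟨_, rfl⟩
    have hkge : κ * X ≤ 2 * k := by
      have h1 : κ * X < k + 1 := by rw [hk]; exact Nat.lt_floor_add_one _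
      have h2 : 2 ≤ κ * X := by
        have := mul_le_mul_of_nonneg_left hXge hκ.le
        linarith only [hxJ4, this]
      linarith only [h1, h2]
    rw [← hk]
    have hwN : ∀ i ≤ N, (w₀ : ℝ) ≤ ((w₀ + i * Δ : ℕ) : ℝ) ∧
        ((w₀ + i * Δ : ℕ) : ℝ) ≤ ((w₀ + N * Δ : ℕ) : ℝ) := by
      intro i hi
      have := Nat.mul_le_mul_right Δ hi
      exact ⟨by exact_mod_cast Nat.le_add_right _ _, by exact_mod_cast (by omega)⟩
    exact by
     have hus0' := hV.us0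
     have hul1 := hV.ul1
     have heJ : 0 < e * (J : ℝ) := mul_pos he hJ0
     have hul' := hul
     rw [abs_le] at hul'
     obtain ⟨X', hX'0, hX'1, hsum⟩ := gV w₀ Δ r V₀ H X Va Rt _ _ sg a t s a' t' al nu kk bb zl zs hsg
       hV hX hF hN
     have h48 : (4 : ℝ) + 1 / 2 ^ (H + X) ≤ 8 := by
       have h1 : (1 : ℝ) / 2 ^ (H + X) ≤ 1 := div_le_self zero_le_one (one_le_pow₀ (by norm_num))
       linarith only [h1]
     have hP1' : 0 ≤ ((N : ℝ) + 1) * (jm * (B₁ / ϖ)) := by positivity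
     have hP2' : 0 ≤ 4 * (1 + v) * Cw + 7 := by positivity
     obtain ⟨loss, l1, l2, l3⟩ := hrow_fin (F := F) (A := A) (sg := sg) (N := N) (w₀ := w₀) (Δ := Δ)
       (r := r) (V₀ := V₀) (H := H) (X := X) (k := k) (X' := X') (jm := jm) (a' := a') (s := s)
       (t' := t') (P := P) (g := g) (L := L) (c := c) (ϖ := ϖ) (δ := δ) (x := x) (Cr := Cr)
       (err := δ * ϖ / 8 * x * J) (B₁ := B₁) (C₁ := C₁) hPA hF.bij hϖ hδ
       (fun ω hω => by
         obtain ⟨b1, b2, b3⟩ := hF.bd ω hω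
         exact ⟨b1.trans (by norm_num), b2.trans (by norm_num), b3.trans h48⟩)
       (fun E hE hE2 P₁ P₂ h12 h1 h2 => by
         have h3 := gR E hE hE2 P₁ P₂ h12 h1 h2
         have e1 : εR * (Cr * x) * J = δ / 8 * (x * J) := by
           rw [hεR]
           field_simp
         rw [e1] at h3
         exact h3)
       (fun i hi q hq kk hkk => by
         have mi := hV.rt i hi
         have mi' := hV.rt' i hi
         have ci : ((V₀ + i * r + H : ℕ) : ℝ) = ((V₀ + i * r : ℕ) : ℝ) + H := by push_cast; ring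
         rw [ci] at mi mi'
         have b3 : -(Cw * x) * (J : ℝ) ≤ w₀ - W g * J := by
           have h1 := mul_le_mul_of_nonneg_right hul'.1 hJ0.le
           linarith only [hul1, heJ, h1]
         have nA := (hrow_numA (J := J) (x := x) (Cw := Cw) (C := Cz) (L := L) (e := e) (g := g)
           (wr := W g) (v := v) (P := P) (us := us) (w₀ := w₀) (wi := ((w₀ + i * Δ : ℕ) : ℝ))
           (Vi := ((V₀ + i * r : ℕ) : ℝ)) (H := H) (X := X) (VN := 0)
           (kk := kk) (q := q) (Y := (Cz + 2 * (1 + v) * Cw + 2) * x) hJ0 hx he.le hex1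
           hv.le hCw0.le hCz.le hL hus b3 (hwN i hi).1 (by linarith only [hus0', hwN, hi, (hwN i hi).2]) mi mi'
           (Nat.cast_nonneg _) (by exact_mod_cast hkk) hXle hq rfl).2
         rw [← hCr] at nA
         refine le_trans (le_of_eq ?_) nA
         unfold fw fv
         push_cast
         rfl)
       (by rw [hB₁]; exact hsum k) hB₁0.le
       (by
         have h1 : δ * ϖ / 8 * x * J / ϖ = δ / 8 * (x * J) := by
           field_simp
         rw [h1]
         have := mul_le_mul_of_nonneg_left hXge (by positivity : 0 ≤ δ / 8)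
         linarith only [this])
       (by
         rw [← hKK]
         have := mul_le_mul_of_nonneg_left hXge hδ.le
         linarith only [hKX, this]) hXge
       (fun j hj => by
         have h1 : ((j : ℝ) + 1) * k ≤ X := by exact_mod_cast hj
         have h2 : ((j : ℝ) + 1) * (κ * X / 2) ≤ ((j : ℝ) + 1) * k :=
           mul_le_mul_of_nonneg_left (by linarith only [hkge]) (by positivity)
         have h3 : (((j : ℝ) + 1) * (κ / 2)) * X ≤ 1 * X := by linarith only [h1, h2]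
         have h4 : ((j : ℝ) + 1) * (κ / 2) ≤ 1 := le_of_mul_le_mul_right h3 (by linarith only [hP0, hP1, hxJ4', hXge])
         have h5 : (j : ℝ) + 1 ≤ 2 / κ := by
           rw [le_div_iff₀ hκ]
           linarith only [h4]
         have h6 : (j : ℝ) + 1 ≤ jm := by
           rw [hjm]
           exact h5.trans (Nat.le_ceil _)
         have h7 : j + 1 ≤ jm := by exact_mod_cast h6
         omega)
       (by rw [hC₁]; linarith only [hP2'])
     exact by
      refine ⟨X', loss, hX'0, hX'1.trans ?_, l1, l2, l3⟩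
      refine mul_le_mul_of_nonneg_right ?_ (Nat.cast_nonneg _)
      rw [hC₁]
      linarith only [hP1']

end cls

end Pool.HPR

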