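import Pool.Agent.H50.S6H.Str
import Pool.Agent.H6.S6H.H3H
import Pool.Agent.H21.FALL.Stmt

/-!
# Plateau of `R - ϖ`, lines without strips: one family

The grid is the one of the falling case (`Pool.FALL`): the windows `w₀ + i Δ` have the precision
`V₀ + i r` of the direction, the precision `H` of the slope is constant; the base velocity is
constant on the diagonals, the rows are constant on the columns. The frame of the window `i` is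
`a i`, `s i`, `t i`, the exact frame is `a'`, `s'`, `t'`. On typical lines no strip of the space of
slopes has mass more than one half.
-/

set_option autoImplicit false

namespace Pool.HPL

open Finset Real
open Pool.Agent.H49.Ent Pool.Agent.H32.Dense Pool.STK Pool.KA Pool.KSAT Pool.K2S Pool.S6N
  Pool.FALL

/-- The context at the place `(i, k)`. -/
noncomputable def cx {J : ℕ} (F : Fam 3 J) (σ : Fin 3 → Fin 3) (N Δ r w₀ V₀ H q₀ : ℕ)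
    (a s t : ℕ → F.Ω → ℝ) (i k : ℕ) :=
  ctx F σ (fw w₀ Δ i) (fq q₀ Δ r N i k) (fv V₀ r i) H (a i) (s i) (t i)

/-- The label of the line at the place `(i, k)`. -/
noncomputable def lx {J : ℕ} (F : Fam 3 J) (σ : Fin 3 → Fin 3) (N X Δ r w₀ V₀ H q₀ : ℕ)
    (a s t : ℕ → F.Ω → ℝ) (i k : ℕ) :=
  Pool.S6H.LL F σ (fw w₀ Δ i) (fq q₀ Δ r N i k) (fv V₀ r i) H X (a i) (s i) (t i)

/-- The velocity along the fans at the place `(i, k)`. -/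
noncomputable def ox {J : ℕ} (F : Fam 3 J) (σ : Fin 3 → Fin 3) (N X Δ r V₀ H q₀ : ℕ)
    (a s t : ℕ → F.Ω → ℝ) (i k : ℕ) : F.Ω → ℝ :=
  om F σ (fq q₀ Δ r N i k) (fv V₀ r i) H X (a i) (s i) (t i) 0

/-- The normal positions at the place `(i, k)`. -/
noncomputable def nx {J : ℕ} (F : Fam 3 J) (σ : Fin 3 → Fin 3) (N X Δ r w₀ V₀ H q₀ : ℕ)
    (a s t : ℕ → F.Ω → ℝ) (a' s' t' : F.Ω → ℝ) (i k : ℕ) : F.Ω → Fin 2 → ℝ :=
  Pool.S6H.nu2 F σ (fw w₀ Δ i) (fq q₀ Δ r N i k) (fv V₀ r i) H X (a i) (s i) (t i) a' s' t'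

/-- The generalised time at the window `i`. -/
def tx {J : ℕ} (F : Fam 3 J) (a s t : ℕ → F.Ω → ℝ) (a' s' t' : F.Ω → ℝ) (i : ℕ) :=
  Pool.S6H.T2 F (a i) (s i) (t i) a' s' t'

/-- The slopes at the window `i`. -/
noncomputable def sx {J : ℕ} (F : Fam 3 J) (r V₀ H : ℕ) (a s t : ℕ → F.Ω → ℝ)
    (a' s' t' : F.Ω → ℝ) (i : ℕ) : F.Ω → Fin 2 → ℝ :=
  Pool.S6H.S2 (fv V₀ r i) H (a i) (s i) (t i) a' s' t'

/-- **The data.** -/
structure HIn {J : ℕ} (F : Fam 3 J) (A : F.Ω → Prop) (σ : Fin 3 → Fin 3)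
    (N M X Δ r w₀ V₀ H q₀ : ℕ) (D e B c ca x₀ η κ ϖ ε : ℝ) (a s t : ℕ → F.Ω → ℝ)
    (a' s' t' : F.Ω → ℝ) : Prop where
  inj : Function.Injective σ
  law : IsLaw (Pool.Agent.H49.Ent.cond F.p A True)
  XΔ : X ≤ Δ
  Xr : X ≤ r
  top : w₀ + N * Δ + X ≤ J
  /-- the frames -/
  frg : ∀ i ≤ N, Frg F A (fw w₀ Δ i) (fv V₀ r i) H D (a i) (s i) (t i) a' s' t'
  /-- the time is full given the line -/
  time : (J : ℝ) * Real.log 2 - e ≤
    CH (Pool.Agent.H49.Ent.cond F.p A True) F.T (fun ω => (F.l ω, F.Z ω))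
  /-- the exact frame has few digits given the first context of a window -/
  dig : ∀ i ≤ N, CH (Pool.Agent.H49.Ent.cond F.p A True) (fun ω => (a' ω, s' ω, t' ω))
    (fun ω => (cx F σ N Δ r w₀ V₀ H q₀ a s t i 0 ω, F.T ω)) ≤ B
  /-- the velocity is active, on large events and in short blocks -/
  act : ∀ i ≤ N, ∀ k < M, ∀ j : ℕ, (j + 1) * ⌊η * X⌋₊ ≤ X → ∀ E : F.Ω → Prop,
    ϖ ≤ Pe (Pool.Agent.H49.Ent.cond F.p A True) E →
    ca * ⌊η * X⌋₊ * Real.log 2 ≤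
      CH (Pool.Agent.H49.Ent.cond (Pool.Agent.H49.Ent.cond F.p A True) E True)
        (Uni.dg ((j + 1) * ⌊η * X⌋₊) (ox F σ N X Δ r V₀ H q₀ a s t i k))
        (fun ω => (Uni.dg (j * ⌊η * X⌋₊) (ox F σ N X Δ r V₀ H q₀ a s t i k) ω,
          cx F σ N Δ r w₀ V₀ H q₀ a s t i k ω))
  /-- the rows of the pair of normal positions are not full on large events -/
  row : ∀ i ≤ N, ∀ k < M, ∀ j : ℕ, (j + 1) * ⌊κ * X⌋₊ ≤ X → ∀ E : F.Ω → Prop,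
    ϖ ≤ Pe (Pool.Agent.H49.Ent.cond F.p A True) E →
    CH (Pool.Agent.H49.Ent.cond (Pool.Agent.H49.Ent.cond F.p A True) E True)
      (Pool.OCV.dgv ((j + 1) * ⌊κ * X⌋₊) (nx F σ N X Δ r w₀ V₀ H q₀ a s t a' s' t' i k))
      (fun ω => (Pool.OCV.dgv (j * ⌊κ * X⌋₊)
        (nx F σ N X Δ r w₀ V₀ H q₀ a s t a' s' t' i k) ω,
        (cx F σ N Δ r w₀ V₀ H q₀ a s t i k ω, tx F a s t a' s' t' i ω))) ≤
      (2 - c) * ⌊κ * X⌋₊ * Real.log 2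
  /-- on typical lines no strip of slopes has mass more than one half -/
  str : ∀ i ≤ N, ∀ k < M, Pool.KAF.Pr (Pool.Agent.H49.Ent.cond F.p A True)
    (Strip (Pool.Agent.H49.Ent.cond F.p A True) (lx F σ N X Δ r w₀ V₀ H q₀ a s t i k)
      (sx F r V₀ H a s t a' s' t' i) ((2 : ℝ) ^ (-(x₀ * X))) (1 / 2)) ≤ ε

/-- **(HPLA)**, lines without strips, one family. -/
def HplOneStmt : Prop :=
  ∀ D c ca : ℝ, 0 ≤ D → 0 < c → 0 < ca → ∃ (x₀ η κ ϖ ι ε : ℝ) (N : ℕ), 0 < x₀ ∧ 0 < η ∧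
    η ≤ 1 ∧ 0 < κ ∧ κ ≤ 1 ∧ 0 < ϖ ∧ 0 < ι ∧ 0 < ε ∧ ∀ β : ℝ, ∃ M X₀ : ℕ,
    ∀ (J : ℕ) (F : Fam 3 J) (A : F.Ω → Prop) (σ : Fin 3 → Fin 3) (X Δ r w₀ V₀ H q₀ : ℕ)
      (e B : ℝ) (a s t : ℕ → F.Ω → ℝ) (a' s' t' : F.Ω → ℝ), X₀ ≤ X → e ≤ ι * X → B ≤ β * X →
      HIn F A σ N M X Δ r w₀ V₀ H q₀ D e B c ca x₀ η κ ϖ ε a s t a' s' t' → False

end Pool.HPL
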