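import Pool.Agent.H45.OCV.Real
import Pool.Agent.H83.OCS.STA

/-!
# Lines without strips

If on a typical line no strip of the space of slopes has mass more than one half, then both
conditions (H6) of theorem OCV hold, for every choice of the visible points.
-/

set_option autoImplicit false

namespace Pool.HPL

open Finset Real
open Pool.Agent.H49.Ent Pool.Agent.H32.Dense Pool.STK Pool.KA Pool.K2S

section

variable {Ω Λ ξ : Type} [Fintype Ω] {c : ℕ}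

/-- The lines on which a strip of width `δ` has mass more than `v`. -/
def Strip (p : Ω → ℝ) (L : Ω → Λ) (S : Ω → Fin c → ℝ) (δ v : ℝ) : Set Ω :=
  {ω | ∃ n : Fin c → ℝ, (∀ i, |n i| ≤ 1) ∧ (∃ i, |n i| = 1) ∧ ∃ z : ℝ,
    v < Pool.KAF.Pr (Pool.Agent.H49.Ent.cond p L (L ω)) {ρ | |∑ i, n i * S ρ i - z| < δ}}

theorem Pr_compl_ge {p : Ω → ℝ} (hp : IsLaw p) (E E' : Set Ω) (h : ∀ ω, ω ∉ E → ω ∈ E') :
    1 - Pool.KAF.Pr p E ≤ Pool.KAF.Pr p E' := by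
  classical
  rw [Pool.KAF.Pr_eq, Pool.KAF.Pr_eq, ← hp.sum_one, ← Finset.sum_sub_distrib]
  refine Finset.sum_le_sum fun ω _ => ?_
  by_cases h1 : ω ∈ E
  · rw [if_pos h1, sub_self]
    split_ifs
    · exact hp.nonneg ω
    · exact le_rfl
  · rw [if_neg h1, if_pos (h ω h1), sub_zero]

theorem Pr_mono_all {p : Ω → ℝ} (hp : ∀ ω, 0 ≤ p ω) {E E' : Set Ω}
    (h : ∀ ω, 0 < p ω → ω ∈ E → ω ∈ E') : Pool.KAF.Pr p E ≤ Pool.KAF.Pr p E' :=
  Pool.OCS.STA.Pr_mono' hp h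

/-- On a line without strips the slopes are far from every line of slopes. -/
theorem far_of_strip {p : Ω → ℝ} (hp : IsLaw p) (L : Ω → Λ) (S : Ω → Fin c → ℝ) {δ : ℝ}
    {ω : Ω} (hω : 0 < p ω) (hS : ω ∉ Strip p L S δ (1 / 2)) {n : Fin c → ℝ}
    (h1 : ∀ i, |n i| ≤ 1) (h2 : ∃ i, |n i| = 1) (z : ℝ) :
    1 / 2 ≤ Pool.KAF.Pr (Pool.Agent.H49.Ent.cond p L (L ω))
      {ρ | δ ≤ |∑ i, n i * S ρ i - z|} := by
  have hl := Pool.M5T.isLaw_cnd hp L hω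
  have k1 : Pool.KAF.Pr (Pool.Agent.H49.Ent.cond p L (L ω))
      {ρ | |∑ i, n i * S ρ i - z| < δ} ≤ 1 / 2 := by
    by_contra hcon
    exact hS ⟨n, h1, h2, z, not_le.1 hcon⟩
  have k2 := Pr_compl_ge hl {ρ | |∑ i, n i * S ρ i - z| < δ}
    {ρ | δ ≤ |∑ i, n i * S ρ i - z|} (fun ρ hρ =>
      not_lt.1 (show ¬ |∑ i, n i * S ρ i - z| < δ from hρ))
  linarith

/-- **(H6a)** without strips. -/
theorem h6a_of_strip {p : Ω → ℝ} (hp : IsLaw p) (L : Ω → Λ) (S : Ω → Fin c → ℝ) (hc : 0 < c)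
    {X : ℕ} {x₀ p₀ ε : ℝ} (hp₀ : p₀ ≤ 1 / 2)
    (h : Pool.KAF.Pr p (Strip p L S ((2 : ℝ) ^ (-(x₀ * X))) (1 / 2)) ≤ ε) :
    Pool.OCV.H6aR p L S X x₀ p₀ ε := by
  classical
  refine le_trans (Pr_mono_all hp.nonneg fun ω hω hE => ?_) h
  by_contra hcon
  have hE' : Pool.KAF.Pr (Pool.Agent.H49.Ent.cond p L (L ω))
    {ρ | ∃ i, (2 : ℝ) ^ (-(x₀ * X)) ≤ |S ρ i - S ω i|} < p₀ := hE
  obtain ⟨i₀⟩ : Nonempty (Fin c) := ⟨⟨0, hc⟩⟩
  have k1 := far_of_strip hp L S hω hcon (n := fun i => if i = i₀ then 1 else 0)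
    (fun i => by
      split_ifs <;> simp) ⟨i₀, by simp⟩ (S ω i₀)
  have k2 : Pool.KAF.Pr (Pool.Agent.H49.Ent.cond p L (L ω))
      {ρ | (2 : ℝ) ^ (-(x₀ * X)) ≤ |∑ i, (if i = i₀ then (1 : ℝ) else 0) * S ρ i - S ω i₀|} ≤
      Pool.KAF.Pr (Pool.Agent.H49.Ent.cond p L (L ω))
        {ρ | ∃ i, (2 : ℝ) ^ (-(x₀ * X)) ≤ |S ρ i - S ω i|} := by
    refine Pr_mono_all (fun v => cond_nonneg hp.nonneg L _ v) fun ρ _ hρ => ⟨i₀, ?_⟩
    have hρ' : (2 : ℝ) ^ (-(x₀ * X)) ≤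
      |∑ i, (if i = i₀ then (1 : ℝ) else 0) * S ρ i - S ω i₀| := hρ
    simpa [Finset.sum_ite_eq] using hρ'
  linarith

/-- **(H6b)** without strips, for every choice of the points. -/
theorem h6b_of_strip {p : Ω → ℝ} (hp : IsLaw p) (L : Ω → Λ) (pt : Ω → ξ) (S : Ω → Fin c → ℝ)
    {X : ℕ} {x₀ p₀ ε : ℝ} (hp₀ : p₀ ≤ 1 / 4)
    (h : Pool.KAF.Pr p (Strip p L S ((2 : ℝ) ^ (-(x₀ * X))) (1 / 2)) ≤ ε) :
    Pool.OCV.H6bR p L pt S X x₀ p₀ (2 * ε) := by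
  classical
  obtain ⟨G, hG⟩ : ∃ G, G = Strip p L S ((2 : ℝ) ^ (-(x₀ * X))) (1 / 2) := ⟨_, rfl⟩
  rw [← hG] at h
  -- on a bad point half of the lines have a strip
  have key : ∀ ω, 0 < p ω → (∃ n : Fin c → ℝ, (∀ i, |n i| ≤ 1) ∧ (∃ i, |n i| = 1) ∧
      ∑ ω', Pool.Agent.H49.Ent.cond p pt (pt ω) ω' *
        Pool.KAF.Pr (Pool.Agent.H49.Ent.cond p L (L ω'))
        {ρ | (2 : ℝ) ^ (-(x₀ * X)) ≤ |∑ i, n i * (S ρ i - S ω i)|} < p₀) →
      1 / 2 ≤ Pool.KAF.Pr (Pool.Agent.H49.Ent.cond p pt (pt ω)) G := by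
    rintro ω hω ⟨n, h1, h2, h3⟩
    have hl := Pool.M5T.isLaw_cnd hp pt hω
    by_contra hcon
    have k1 : (1 / 2) * (1 - Pool.KAF.Pr (Pool.Agent.H49.Ent.cond p pt (pt ω)) G) ≤
        ∑ ω', Pool.Agent.H49.Ent.cond p pt (pt ω) ω' *
          Pool.KAF.Pr (Pool.Agent.H49.Ent.cond p L (L ω'))
          {ρ | (2 : ℝ) ^ (-(x₀ * X)) ≤ |∑ i, n i * (S ρ i - S ω i)|} := by
      have e0 : 1 - Pool.KAF.Pr (Pool.Agent.H49.Ent.cond p pt (pt ω)) G =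
          ∑ ω', (Pool.Agent.H49.Ent.cond p pt (pt ω) ω' -
            if ω' ∈ G then Pool.Agent.H49.Ent.cond p pt (pt ω) ω' else 0) := by
        rw [Finset.sum_sub_distrib, hl.sum_one, Pool.KAF.Pr_eq]
      rw [e0, Finset.mul_sum]
      refine Finset.sum_le_sum fun ω' _ => ?_
      rcases (hl.nonneg ω').eq_or_lt with h0 | h0
      · rw [← h0]
        simp
      by_cases hg : ω' ∈ G
      · rw [if_pos hg, sub_self, mul_zero]
        exact mul_nonneg (hl.nonneg ω')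
          (Pool.OCS.STA.Pr_nonneg' (fun v => cond_nonneg hp.nonneg L _ v) _)
      · rw [if_neg hg, sub_zero, mul_comm]
        refine mul_le_mul_of_nonneg_left ?_ (hl.nonneg ω')
        have hω' : 0 < p ω' := ((cond_pos_iff hp.nonneg pt (pt ω) ω').1 h0).1
        rw [hG] at hg
        refine (far_of_strip hp L S hω' hg h1 h2 (∑ i, n i * S ω i)).trans (le_of_eq ?_)
        congr 1
        ext ρ
        have e : ∑ i, n i * (S ρ i - S ω i) = ∑ i, n i * S ρ i - ∑ i, n i * S ω i := by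
          rw [← Finset.sum_sub_distrib]
          exact Finset.sum_congr rfl fun i _ => by ring
        show (2 : ℝ) ^ (-(x₀ * X)) ≤ |∑ i, n i * S ρ i - ∑ i, n i * S ω i| ↔
          (2 : ℝ) ^ (-(x₀ * X)) ≤ |∑ i, n i * (S ρ i - S ω i)|
        rw [e]
    linarith [not_le.1 hcon]
  -- Markov
  have m1 : Ex p (fun ω => Pool.KAF.Pr (Pool.Agent.H49.Ent.cond p pt (pt ω)) G) =
      Pool.KAF.Pr p G := by
    have h1 := Pool.M5T.Ex_dbl (p := p) pt (fun w => Set.indicator G (fun _ => (1 : ℝ)) w.2)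
    have h2 : Ex (dbl p pt) (fun w => Set.indicator G (fun _ => (1 : ℝ)) w.2) =
        Ex p (Set.indicator G (fun _ => (1 : ℝ))) := (dbl_snd hp.nonneg).ex _
    have h3 : ∀ (q : Ω → ℝ), Ex q (Set.indicator G (fun _ => (1 : ℝ))) = Pool.KAF.Pr q G := by
      intro q
      rw [Pool.KAF.Pr_eq]
      unfold Ex
      refine Finset.sum_congr rfl fun ω _ => ?_
      by_cases hg : ω ∈ G
      · rw [Set.indicator_of_mem hg, if_pos hg, mul_one]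
      · rw [Set.indicator_of_notMem hg, if_neg hg, mul_zero]
    rw [h2, h3] at h1
    rw [h1]
    unfold Ex
    refine Finset.sum_congr rfl fun ω _ => ?_
    congr 1
    exact (h3 _).symm
  have m2 : (1 / 2) * Pool.KAF.Pr p {ω | ∃ n : Fin c → ℝ, (∀ i, |n i| ≤ 1) ∧ (∃ i, |n i| = 1) ∧
      ∑ ω', Pool.Agent.H49.Ent.cond p pt (pt ω) ω' *
        Pool.KAF.Pr (Pool.Agent.H49.Ent.cond p L (L ω'))
        {ρ | (2 : ℝ) ^ (-(x₀ * X)) ≤ |∑ i, n i * (S ρ i - S ω i)|} < p₀} ≤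
      Ex p (fun ω => Pool.KAF.Pr (Pool.Agent.H49.Ent.cond p pt (pt ω)) G) := by
    rw [Pool.KAF.Pr_eq, Finset.mul_sum]
    unfold Ex
    refine Finset.sum_le_sum fun ω _ => ?_
    rcases (hp.nonneg ω).eq_or_lt with h0 | h0
    · rw [← h0]
      simp
    have hn : 0 ≤ Pool.KAF.Pr (Pool.Agent.H49.Ent.cond p pt (pt ω)) G :=
      Pool.OCS.STA.Pr_nonneg' (fun v => cond_nonneg hp.nonneg pt _ v) _
    split_ifs with hb
    · have := key ω h0 hb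
      rw [mul_comm]
      exact mul_le_mul_of_nonneg_left this (hp.nonneg ω)
    · rw [mul_zero]
      exact mul_nonneg (hp.nonneg ω) hn
  show Pool.KAF.Pr p _ ≤ 2 * ε
  linarith

end

end Pool.HPL
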