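import Pool.Agent.H50.S6H.Stm
import Pool.Agent.H21.FALL.Thm

/-!
# Plateau of `R - ϖ`, one family: the dictionary and the three sums
-/

set_option autoImplicit false

namespace Pool.HPL

open Finset Real
open Pool.Agent.H49.Ent Pool.Agent.H32.Dense Pool.STK Pool.KA Pool.KA.Box Pool.KSAT Pool.K2S
  Pool.S6N Pool.S6H
open Pool.FALL (fw fv fq ctx_next')

section one

variable {J : ℕ} {F : Fam 3 J} {A : F.Ω → Prop} {σ : Fin 3 → Fin 3} {w q V H X : ℕ} {D : ℝ}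
  {a s t a' s' t' : F.Ω → ℝ}

/-- **The dictionary.** -/
theorem ocvdata (hF : Frg F A w V H D a s t a' s' t')
    (hQ : IsLaw (Pool.Agent.H49.Ent.cond F.p A True)) :
    Pool.OCV.OCVData (D + D * D) (Pool.Agent.H49.Ent.cond F.p A True) (ctx F σ w q V H a s t)
      (LL F σ w q V H X a s t) (T2 F a s t a' s' t') (ctx F σ w q V H a s t)
      (yy F σ w q V H X a s t 0) (om F σ q V H X a s t 0)
      (fun ω i => om F σ q V H X a s t (Fin.succ i) ω)
      (fun ω i => yy F σ w q V H X a s t (Fin.succ i) ω) (F.wt w) (S2 V H a s t a' s' t')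
      (kn2 F σ w q V H a s t a' s' t') (nu2 F σ w q V H X a s t a' s' t') := by
  have hA : ∀ ω, 0 < Pool.Agent.H49.Ent.cond F.p A True ω → A ω := fun ω hω =>
    of_eq_true ((cond_pos_iff F.isLaw.nonneg A True ω).1 hω).2
  refine ⟨hQ, ?_, ?_, ?_, ?_, ?_, ?_, ?_, ?_, ?_, ?_, ?_, ?_, ?_, ?_, ?_⟩
  · intro ω ω' _ _ h
    exact (LL_ext h).2
  · intro ω ω' _ _ h
    exact (Prod.ext_iff.mp h).1
  · intro ω ω' _ _ h
    exact yy_det (LL_ext h).1 0
  · intro ω ω' _ _ h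
    exact om_det (w := w) (LL_ext h).1 0
  · intro ω ω' _ _ h
    funext i
    exact om_det (w := w) (LL_ext h).1 i.succ
  · intro ω ω' _ _ h
    funext i
    exact yy_det (LL_ext h).1 i.succ
  · intro ω ω' _ _ h
    unfold Fam.wt
    rw [(gt_ext (T2_ext h).2).1]
  · intro ω ω' _ _ h
    exact S2_det (T2_ext h).1 (T2_ext h).2
  · intro ω ω' _ _ h
    exact kn2_det (Prod.ext_iff.mp h).1 (Prod.ext_iff.mp h).2
  · intro ω _
    exact yy_mem _ ω
  · intro ω _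
    exact om_mem _ ω
  · intro ω _ i
    exact om_mem _ ω
  · intro ω _
    exact Lab.wt_mem F w ω
  · intro ω hω i
    exact S2_le hF (hA ω hω) i
  · intro ω _ i
    rfl

/-- The frame of the context is known. -/
theorem ctx_T2 (hσ : Function.Injective σ) {ω ω' : F.Ω}
    (h : ctx F σ w q V H a s t ω = ctx F σ w q V H a s t ω')
    (h' : gt F a' s' t' ω = gt F a' s' t' ω') :
    T2 F a s t a' s' t' ω = T2 F a s t a' s' t' ω' := by
  obtain ⟨h1, h2, h3⟩ := ctx_frm hσ h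
  unfold T2
  rw [h1, h2, h3, h']

/-- The conditions `(ctx, gt)` and `(ctx, T2)` are equivalent. -/
theorem CH_T2 (hσ : Function.Injective σ) {p : F.Ω → ℝ} (h0 : ∀ ω, 0 ≤ p ω) {τ γ : Type}
    (x : F.Ω → τ) (W : F.Ω → γ) :
    CH p x (fun ω => (W ω, (ctx F σ w q V H a s t ω, T2 F a s t a' s' t' ω))) =
      CH p x (fun ω => (W ω, (ctx F σ w q V H a s t ω, gt F a' s' t' ω))) := by
  refine CH_congr h0 (fun _ _ _ _ e => (Prod.ext_iff.mp e).1)
    (fun _ _ _ _ e => (Prod.ext_iff.mp e).1) ?_ ?_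
  · intro ω ω' _ _ h
    have h1 := Prod.ext_iff.mp h
    have h2 := Prod.ext_iff.mp h1.2
    exact Prod.ext h1.1 (Prod.ext h2.1 (T2_ext h2.2).2)
  · intro ω ω' _ _ h
    have h1 := Prod.ext_iff.mp h
    have h2 := Prod.ext_iff.mp h1.2
    exact Prod.ext h1.1 (Prod.ext h2.1 (ctx_T2 hσ h2.1 h2.2))

theorem CH_T2' (hσ : Function.Injective σ) {p : F.Ω → ℝ} (h0 : ∀ ω, 0 ≤ p ω) {τ : Type}
    (x : F.Ω → τ) :
    CH p x (fun ω => (ctx F σ w q V H a s t ω, T2 F a s t a' s' t' ω)) =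
      CH p x (fun ω => (ctx F σ w q V H a s t ω, gt F a' s' t' ω)) := by
  refine CH_congr h0 (fun _ _ _ _ e => (Prod.ext_iff.mp e).1)
    (fun _ _ _ _ e => (Prod.ext_iff.mp e).1) ?_ ?_
  · intro ω ω' _ _ h
    have h2 := Prod.ext_iff.mp h
    exact Prod.ext h2.1 (T2_ext h2.2).2
  · intro ω ω' _ _ h
    have h2 := Prod.ext_iff.mp h
    exact Prod.ext h2.1 (ctx_T2 hσ h2.1 h2.2)

/-- The information of the generalised time about the line. -/
theorem mi_T2 (hσ : Function.Injective σ) {p : F.Ω → ℝ} (h0 : ∀ ω, 0 ≤ p ω) :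
    Pool.KVA.MI p (T2 F a s t a' s' t') (LL F σ w q V H X a s t) (ctx F σ w q V H a s t) =
      Pool.KVA.MI p (gt F a' s' t') (blk F σ w q V H X a s t) (ctx F σ w q V H a s t) := by
  have e1 : CH p (T2 F a s t a' s' t') (ctx F σ w q V H a s t) =
      CH p (gt F a' s' t') (ctx F σ w q V H a s t) := by
    refine le_antisymm (CH_mono_left h0 ?_) (CH_mono_left h0 ?_)
    · intro ω ω' _ _ h
      have h1 := Prod.ext_iff.mp h
      exact ctx_T2 hσ h1.2 h1.1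
    · intro ω ω' _ _ h
      exact (T2_ext (Prod.ext_iff.mp h).1).2
  have e2 : CH p (LL F σ w q V H X a s t) (ctx F σ w q V H a s t) =
      CH p (blk F σ w q V H X a s t) (ctx F σ w q V H a s t) := by
    refine le_antisymm (CH_mono_left h0 ?_) (CH_mono_left h0 ?_)
    · intro ω ω' _ _ h
      have h1 := Prod.ext_iff.mp h
      exact Prod.ext h1.1 h1.2
    · intro ω ω' _ _ h
      exact (LL_ext (Prod.ext_iff.mp h).1).1
  have e3 : CH p (fun ω => (T2 F a s t a' s' t' ω, LL F σ w q V H X a s t ω))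
      (ctx F σ w q V H a s t) =
      CH p (fun ω => (gt F a' s' t' ω, blk F σ w q V H X a s t ω)) (ctx F σ w q V H a s t) := by
    refine le_antisymm (CH_mono_left h0 ?_) (CH_mono_left h0 ?_)
    · intro ω ω' _ _ h
      have h1 := Prod.ext_iff.mp h
      have h2 := Prod.ext_iff.mp h1.1
      exact Prod.ext (ctx_T2 hσ h1.2 h2.1) (Prod.ext h2.2 h1.2)
    · intro ω ω' _ _ h
      have h2 := Prod.ext_iff.mp (Prod.ext_iff.mp h).1
      exact Prod.ext (T2_ext h2.1).2 (LL_ext h2.2).1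
  unfold Pool.KVA.MI
  rw [e1, e2, e3]

/-- The digits of the normal positions, given the context. -/
theorem nu2_card (hσ : Function.Injective σ) (hF : Frg F A w V H D a s t a' s' t') (hD : 0 ≤ D)
    (hQ : IsLaw (Pool.Agent.H49.Ent.cond F.p A True)) :
    CH (Pool.Agent.H49.Ent.cond F.p A True)
      (Pool.OCV.dgv X (nu2 F σ w q V H X a s t a' s' t'))
      (fun ω => (ctx F σ w q V H a s t ω, gt F a' s' t' ω)) ≤
      2 * (X * Real.log 2) + 2 * Real.log (8 * (D + D * D) + 11) := by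
  have hA : ∀ ω, 0 < Pool.Agent.H49.Ent.cond F.p A True ω → A ω := fun ω hω =>
    of_eq_true ((cond_pos_iff F.isLaw.nonneg A True ω).1 hω).2
  obtain ⟨K, hK⟩ : ∃ K, K = D + D * D := ⟨_, rfl⟩
  have hK0 : 0 ≤ K := by rw [hK]; positivity
  have hX : (0 : ℝ) < 2 ^ X := by positivity
  have hX1 : (1 : ℝ) ≤ 2 ^ X := one_le_pow₀ (by norm_num)
  have bd : ∀ (ω : F.Ω), A ω → ∀ i : Fin 2,
      |nu2 F σ w q V H X a s t a' s' t' ω i - kn2 F σ w q V H a s t a' s' t' ω i| ≤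
        2 + 2 * K := by
    intro ω hω i
    have y0 := yy_mem (F := F) (σ := σ) (w := w) (q := q) (V := V) (H := H) (X := X)
      (a := a) (s := s) (t := t) 0 ω
    have y1 := yy_mem (F := F) (σ := σ) (w := w) (q := q) (V := V) (H := H) (X := X)
      (a := a) (s := s) (t := t) i.succ ω
    have o0 := om_mem (F := F) (σ := σ) (q := q) (V := V) (H := H) (X := X)
      (a := a) (s := s) (t := t) 0 ω
    have o1 := om_mem (F := F) (σ := σ) (q := q) (V := V) (H := H) (X := X)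
      (a := a) (s := s) (t := t) i.succ ω
    have ht := Lab.wt_mem F w ω
    have hS := S2_le hF hω i
    rw [← hK] at hS
    have p0 : 0 ≤ F.wt w ω * om F σ q V H X a s t 0 ω := mul_nonneg ht.1 o0.1
    have p1 : 0 ≤ F.wt w ω * om F σ q V H X a s t i.succ ω := mul_nonneg ht.1 o1.1
    have p2 : F.wt w ω * om F σ q V H X a s t 0 ω ≤ 1 := mul_le_one₀ ht.2.le o0.1 o0.2.le
    have p3 : F.wt w ω * om F σ q V H X a s t i.succ ω ≤ 1 := mul_le_one₀ ht.2.le o1.1 o1.2.le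
    have p4 : |S2 V H a s t a' s' t' ω i * (yy F σ w q V H X a s t 0 ω +
        F.wt w ω * om F σ q V H X a s t 0 ω)| ≤ K * 2 := by
      rw [abs_mul]
      refine mul_le_mul hS ?_ (abs_nonneg _) hK0
      rw [abs_le]
      constructor <;> linarith [y0.1, y0.2]
    have e : nu2 F σ w q V H X a s t a' s' t' ω i - kn2 F σ w q V H a s t a' s' t' ω i =
        yy F σ w q V H X a s t i.succ ω + F.wt w ω * om F σ q V H X a s t i.succ ω -
          S2 V H a s t a' s' t' ω i * (yy F σ w q V H X a s t 0 ω +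
            F.wt w ω * om F σ q V H X a s t 0 ω) := by
      unfold nu2
      ring
    rw [e]
    have c4 := abs_le.1 p4
    rw [abs_le]
    constructor <;> linarith [y1.1, y1.2, c4.1, c4.2]
  refine (Plk.CH_vec_const hQ _ _ (c := 2 ^ X * (4 + 4 * K) + 1) ?_).trans ?_
  · intro ω ω' hω hω' h i
    have h1 := Prod.ext_iff.mp h
    have h2 : kn2 F σ w q V H a s t a' s' t' ω = kn2 F σ w q V H a s t a' s' t' ω' :=
      kn2_det h1.1 (ctx_T2 hσ h1.1 h1.2)
    have b1 := bd ω (hA ω hω) i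
    have b2 := bd ω' (hA ω' hω') i
    rw [← congrFun h2 i] at b2
    refine Plk.floor_sub_lt ?_
    rw [← mul_sub, abs_mul, abs_of_pos hX]
    refine mul_le_mul_of_nonneg_left ?_ hX.le
    have c1 := abs_le.1 b1
    have c2 := abs_le.1 b2
    rw [abs_le]
    constructor <;> linarith [c1.1, c1.2, c2.1, c2.2]
  · have l1 : Real.log (2 * (2 ^ X * (4 + 4 * K) + 1) + 1) ≤
        X * Real.log 2 + Real.log (8 * K + 11) := by
      rw [← Real.log_pow, ← Real.log_mul (by positivity) (by positivity)]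
      refine Real.log_le_log (by positivity) ?_
      nlinarith
    rw [← hK]
    push_cast
    linarith

end one

section grid

variable {J : ℕ} {F : Fam 3 J} {A : F.Ω → Prop} {σ : Fin 3 → Fin 3}
  {N X Δ r w₀ V₀ H q₀ : ℕ} {D : ℝ} {a s t : ℕ → F.Ω → ℝ} {a' s' t' : F.Ω → ℝ}

/-- The block at the place `(i, k)`. -/
noncomputable def bx {J : ℕ} (F : Fam 3 J) (σ : Fin 3 → Fin 3) (N X Δ r w₀ V₀ H q₀ : ℕ)
    (a s t : ℕ → F.Ω → ℝ) (i k : ℕ) :=
  blk F σ (fw w₀ Δ i) (fq q₀ Δ r N i k) (fv V₀ r i) H X (a i) (s i) (t i)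

/-- **Principle M.** -/
theorem sum1 (hQ : IsLaw (Pool.Agent.H49.Ent.cond F.p A True)) (hX : X ≤ Δ) (i M : ℕ) :
    ∑ k ∈ range M, (CH (Pool.Agent.H49.Ent.cond F.p A True) (fun ω => (a' ω, s' ω, t' ω))
        (fun ω => (cx F σ N Δ r w₀ V₀ H q₀ a s t i k ω, F.T ω)) -
      CH (Pool.Agent.H49.Ent.cond F.p A True) (fun ω => (a' ω, s' ω, t' ω))
        (fun ω => (bx F σ N X Δ r w₀ V₀ H q₀ a s t i k ω,
          (cx F σ N Δ r w₀ V₀ H q₀ a s t i k ω, F.T ω)))) ≤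
      CH (Pool.Agent.H49.Ent.cond F.p A True) (fun ω => (a' ω, s' ω, t' ω))
        (fun ω => (cx F σ N Δ r w₀ V₀ H q₀ a s t i 0 ω, F.T ω)) := by
  have h0 := hQ.nonneg
  have h1 := tel_fix h0 (fun ω => (a' ω, s' ω, t' ω))
    (fun k => bx F σ N X Δ r w₀ V₀ H q₀ a s t i k) (fun k => cx F σ N Δ r w₀ V₀ H q₀ a s t i k)
    F.T (N := M) (C := 0) le_rfl (fun k _ => by
      refine le_of_eq (CH_eq_zero h0 fun ω ω' _ _ h => ?_)
      have h2 := (Prod.ext_iff.mp h).1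
      unfold cx at h2
      rw [Pool.FALL.fq_succ] at h2
      obtain ⟨h3, h4⟩ := ctx_next' (X := X) (q := fq q₀ Δ r N i k) (by omega) h2
      exact Prod.ext h4 h3)
  simp only [zero_mul, mul_zero, add_zero] at h1
  exact h1

/-- The velocity and the position of the block at the place `(i, k)`. -/
noncomputable def vx {J : ℕ} (F : Fam 3 J) (σ : Fin 3 → Fin 3) (N X Δ r w₀ V₀ H q₀ : ℕ)
    (a s t : ℕ → F.Ω → ℝ) (i k : ℕ) :=
  vb2 F σ (fw w₀ Δ i) (fq q₀ Δ r N i k) (fv V₀ r i) H X (a i) (s i) (t i)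

/-- **(H2)**, the sum over the windows. -/
theorem sum2 (hσ : Function.Injective σ) (hQ : IsLaw (Pool.Agent.H49.Ent.cond F.p A True))
    (hX : X ≤ Δ) (hr : X ≤ r) (hD : 0 ≤ D)
    (hF : ∀ i ≤ N, Frg F A (fw w₀ Δ i) (fv V₀ r i) H D (a i) (s i) (t i) a' s' t')
    (hJ : w₀ + N * Δ ≤ J) {N' : ℕ} (hN' : N' ≤ N) (k : ℕ) {C : ℝ}
    (hC1 : 3 * Real.log (2 * D + 1) +
        2 * (3 * Real.log (4 * 3 * (2 * D + 2 * D ^ 2 + 1) + 3)) ≤ C)
    (hC2 : 2 * Real.log (2 * ((4 * (2 + 2 * (D + D * D)) + 1) +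
        (2 * D + 2 * D ^ 2 + 1) * (2 * (2 + 2 * (D + D * D)) + 1) + 1) + 1) ≤ C) :
    ∑ i ∈ range N', (CH (Pool.Agent.H49.Ent.cond F.p A True)
        (Pool.OCV.dgv X (nx F σ N X Δ r w₀ V₀ H q₀ a s t a' s' t' (1 + i) k))
        (fun ω => (cx F σ N Δ r w₀ V₀ H q₀ a s t (1 + i) k ω, gt F a' s' t' ω)) -
      CH (Pool.Agent.H49.Ent.cond F.p A True)
        (Pool.OCV.dgv X (nx F σ N X Δ r w₀ V₀ H q₀ a s t a' s' t' (1 + i) k))
        (fun ω => (vx F σ N X Δ r w₀ V₀ H q₀ a s t (1 + i) k ω,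
          (cx F σ N Δ r w₀ V₀ H q₀ a s t (1 + i) k ω, gt F a' s' t' ω)))) ≤
      2 * (X * Real.log 2) + 2 * Real.log (8 * (D + D * D) + 11) + 2 * C * N' := by
  have h0 := hQ.nonneg
  have h1 := tel_chain h0
    (fun j => Pool.OCV.dgv X (nx F σ N X Δ r w₀ V₀ H q₀ a s t a' s' t' (N' - j) k))
    (fun j => vx F σ N X Δ r w₀ V₀ H q₀ a s t (N' - j) k)
    (fun j => cx F σ N Δ r w₀ V₀ H q₀ a s t (N' - j) k) (gt F a' s' t') (N := N') (C := C)
    (fun j hj => by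
      obtain ⟨i, hi⟩ : ∃ i, N' - j = i + 1 := ⟨N' - j - 1, by omega⟩
      have hi' : N' - (j + 1) = i := by omega
      rw [hi, hi']
      refine (h2_step2 (F := F) (σ := σ) (X := X) (hF (i + 1) (by omega)) (hF i (by omega))
        hD hQ ((Pool.FALL.fw_le (by omega)).trans hJ) ?_ ?_ ?_).trans hC1
      · rw [Pool.FALL.fw_succ]
        omega
      · rw [Pool.FALL.fv_succ]
        omega
      · rw [Pool.FALL.fq_prev q₀ Δ r k (by omega : i + 1 ≤ N), Pool.FALL.fw_succ,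
          Pool.FALL.fv_succ]
        omega)
    (fun j hj => by
      obtain ⟨i, hi⟩ : ∃ i, N' - j = i + 1 := ⟨N' - j - 1, by omega⟩
      have hi' : N' - (j + 1) = i := by omega
      rw [hi, hi']
      refine (h2_row2 (F := F) (σ := σ) (X := X) hσ (hF (i + 1) (by omega)) (hF i (by omega))
        hD hQ ((Pool.FALL.fw_le (by omega)).trans hJ) ((Pool.FALL.fw_le (by omega)).trans hJ)
        ?_ ?_).trans hC2
      · rw [Pool.FALL.fv_succ]
        omega
      · rw [Pool.FALL.fq_prev q₀ Δ r k (by omega : i + 1 ≤ N), Pool.FALL.fw_succ,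
          Pool.FALL.fv_succ]
        omega)
  have h2 : CH (Pool.Agent.H49.Ent.cond F.p A True)
      (Pool.OCV.dgv X (nx F σ N X Δ r w₀ V₀ H q₀ a s t a' s' t' (N' - 0) k))
      (fun ω => (cx F σ N Δ r w₀ V₀ H q₀ a s t (N' - 0) k ω, gt F a' s' t' ω)) ≤
      2 * (X * Real.log 2) + 2 * Real.log (8 * (D + D * D) + 11) :=
    nu2_card hσ (hF (N' - 0) (by omega)) hD hQ
  have h3 := CH_nonneg h0
    (Pool.OCV.dgv X (nx F σ N X Δ r w₀ V₀ H q₀ a s t a' s' t' (N' - N') k))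
    (fun ω => (cx F σ N Δ r w₀ V₀ H q₀ a s t (N' - N') k ω, gt F a' s' t' ω))
  rw [← Finset.sum_range_reflect] at h1
  have h4 : ∀ i ∈ range N', N' - (N' - 1 - i) = 1 + i := by
    intro i hi
    have := Finset.mem_range.1 hi
    omega
  rw [Finset.sum_congr rfl fun i hi => by rw [h4 i hi]] at h1
  linarith

/-- The fan of the block at the place `(i, k)`. -/
noncomputable def ex {J : ℕ} (F : Fam 3 J) (σ : Fin 3 → Fin 3) (N X Δ r w₀ V₀ H q₀ : ℕ)
    (a s t : ℕ → F.Ω → ℝ) (a' s' t' : F.Ω → ℝ) (i k : ℕ) :=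
  yb2 F σ (fw w₀ Δ i) (fq q₀ Δ r N i k) (fv V₀ r i) H X (a i) (s i) (t i) a' s' t'

/-- **(H3)**, the sum over the diagonals. -/
theorem sum3 (hσ : Function.Injective σ) (hQ : IsLaw (Pool.Agent.H49.Ent.cond F.p A True))
    (hX : X ≤ Δ) (hr : X ≤ r) (hD : 0 ≤ D)
    (hF : ∀ i ≤ N, Frg F A (fw w₀ Δ i) (fv V₀ r i) H D (a i) (s i) (t i) a' s' t')
    (hJ : w₀ + N * Δ ≤ J) {N' : ℕ} (hN' : N' + 1 ≤ N) (d : ℕ) {C : ℝ}
    (hC : 3 * Real.log (2 * (3 * (1 + (D + D * D)) +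
        2 * (2 * D + 2 * D ^ 2 + 1) ^ 2 * (1 + (D + D * D)) + 6) + 1) +
      (3 * Real.log (2 * D + 1) +
        2 * (3 * Real.log (4 * 3 * (2 * (2 * D + 2 * D ^ 2 + 1) ^ 2) + 3))) ≤ C) (hC0 : 0 ≤ C) :
    ∑ i ∈ range N', (CH (Pool.Agent.H49.Ent.cond F.p A True)
        (Uni.dg X (ox F σ N X Δ r V₀ H q₀ a s t (1 + i) (i + d)))
        (fun ω => (cx F σ N Δ r w₀ V₀ H q₀ a s t (1 + i) (i + d) ω, gt F a' s' t' ω)) -
      CH (Pool.Agent.H49.Ent.cond F.p A True)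
        (Uni.dg X (ox F σ N X Δ r V₀ H q₀ a s t (1 + i) (i + d)))
        (fun ω => (ex F σ N X Δ r w₀ V₀ H q₀ a s t a' s' t' (1 + i) (i + d) ω,
          (cx F σ N Δ r w₀ V₀ H q₀ a s t (1 + i) (i + d) ω, gt F a' s' t' ω)))) ≤
      X * Real.log 2 + 2 * C * N' := by
  have h0 := hQ.nonneg
  obtain ⟨Q, hQd⟩ : ∃ Q, Q = q₀ + (d + (N - 1)) * (Δ + r) := ⟨_, rfl⟩
  have hQj : ∀ j, 1 + j ≤ N → fq q₀ Δ r N (1 + j) (j + d) = Q := fun j hj => by
    rw [hQd]
    exact Pool.FALL.fq_diag q₀ Δ r d hj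
  obtain ⟨n, hn⟩ : ∃ n, n = Uni.dg X (om F σ Q 0 H X (a 0) (s 0) (t 0) 0) := ⟨_, rfl⟩
  have hn' : ∀ j, Uni.dg X (om F σ Q (fv V₀ r (1 + j)) H X (a (1 + j)) (s (1 + j))
      (t (1 + j)) 0) = n := by
    intro j
    rw [hn]
    funext ω
    exact dg_om0 (w₁ := 0) ω
  have h1 := tel_fix h0 n (fun j => yb2 F σ (fw w₀ Δ (1 + j)) Q (fv V₀ r (1 + j)) H X
      (a (1 + j)) (s (1 + j)) (t (1 + j)) a' s' t')
    (fun j => ctx F σ (fw w₀ Δ (1 + j)) Q (fv V₀ r (1 + j)) H (a (1 + j)) (s (1 + j))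
      (t (1 + j)))
    (gt F a' s' t') (N := N') (C := C) hC0 (fun j hj => by
      have e : 1 + (j + 1) = (1 + j) + 1 := by omega
      simp only [e]
      refine (h3_step (F := F) (σ := σ) (q := Q) (X := X) hσ (hF (1 + j) (by omega))
        (hF (1 + j + 1) (by omega)) hD hQ ((Pool.FALL.fw_le (by omega)).trans hJ)
        ((Pool.FALL.fw_le (by omega)).trans hJ) ?_ ?_).trans hC
      · rw [Pool.FALL.fw_succ]
        omega
      · rw [Pool.FALL.fv_succ]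
        omega)
  have h2 : CH (Pool.Agent.H49.Ent.cond F.p A True) n (fun ω => (ctx F σ (fw w₀ Δ (1 + 0)) Q
      (fv V₀ r (1 + 0)) H (a (1 + 0)) (s (1 + 0)) (t (1 + 0)) ω, gt F a' s' t' ω)) ≤
      X * Real.log 2 := by
    rw [hn]
    exact CH_dg_unit hQ X _ _ (fun ω _ => om_mem 0 ω)
  refine le_trans (le_of_eq ?_) (h1.trans (by linarith))
  refine Finset.sum_congr rfl fun i hi => ?_
  have hi' := Finset.mem_range.1 hi
  unfold cx ox ex
  rw [hQj i (by omega), hn' i]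

end grid

end Pool.HPL
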